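import Mathlib

/-!
Three exactness statements for the cone of multiplication by a scalar, written with
operators `D`, `E`, `I` that satisfy the relations of exterior multiplication by a basis vector
(`E`), contraction against the dual basis vector (`I`) and a differential not involving that
basis vector (`D`).
-/

set_option autoImplicit false

namespace Pool.Agent.FMod

variable {R T : Type*} [CommRing R] [AddCommGroup T] [Module R T]

/-- The relations between `D`, `E`, `I`. -/
structure CAR (D E I : T →ₗ[R] T) : Prop where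
  ee : ∀ x, E (E x) = 0
  ii : ∀ x, I (I x) = 0
  ie : ∀ x, I (E x) + E (I x) = x
  de : ∀ x, D (E x) = - E (D x)
  di : ∀ x, D (I x) = - I (D x)

namespace CAR

variable {D E I : T →ₗ[R] T} (h : CAR D E I)
include h

lemma iei (x : T) : I (E (I x)) = I x := by
  have := h.ie (I x)
  rwa [h.ii, map_zero, add_zero] at this

lemma eie (x : T) : E (I (E x)) = E x := by
  have := h.ie (E x)
  rwa [h.ee, map_zero, zero_add] at this

theorem core1 (A B : R) (ω v : T) (hω : D ω + A • E ω = 0)
    (hv : I (E ω) + B • E (I ω) = D v + (A * B) • E v) :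
    (D (I ω - A • I (E v) - E (I v)) + B • E (I ω - A • I (E v) - E (I v)) = 0) ∧
    (ω - E (I ω - A • I (E v) - E (I v)) = D (I (E v)) + A • E (I (E v))) := by
  have h1 : B • I ω = I (D v) + (A * B) • I (E v) := by
    have := congrArg I hv
    simpa [h.ii, h.iei] using this
  have h2 : I (E ω) = I (E (D v)) := by
    have := congrArg (fun x => I (E x)) hv
    simpa [h.ii, h.iei, h.ee, h.eie] using this
  have h3 : D (I (E v)) = I (E (D v)) := by
    rw [h.di, h.de]; simp
  have h4 : D (I ω) = A • I (E ω) := by
    rw [h.di, eq_neg_of_add_eq_zero_left hω]; simp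
  have h5 : D (E (I v)) = E (I (D v)) := by
    rw [h.de, h.di]; simp
  constructor
  · have h6 : E (B • I ω) = E (I (D v)) + (A * B) • E v := by
      rw [h1]; simp [h.eie]
    simp only [map_sub, map_smul, h3, h4, h5, h.ee, h.eie]
    rw [h2]
    rw [map_smul] at h6
    rw [smul_sub, smul_sub, h6, smul_zero, smul_smul, mul_comm B A]
    abel
  · have h7 := h.ie ω
    simp only [map_sub, map_smul, h.ee, h.eie, h3, ← h2]
    nth_rewrite 1 [← h7]
    abel

theorem core2 (A B : R) (ζ v : T) (hζ : D ζ + B • E ζ = 0)
    (hv : E ζ = D v + A • E v) :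
    (D (I (E v) + E (I ζ + B • I v)) + (A * B) • E (I (E v) + E (I ζ + B • I v)) = 0) ∧
    (ζ - (A • I (E (I (E v) + E (I ζ + B • I v))) + E (I (I (E v) + E (I ζ + B • I v)))) =
      D (- I v) + B • E (- I v)) := by
  have h1 : E (D v) = 0 := by
    have := congrArg E hv
    simpa [h.ee] using this.symm
  have h3 : D (I (E v)) = I (E (D v)) := by
    rw [h.di, h.de]; simp
  have h4 : D (I ζ) = B • I (E ζ) := by
    rw [h.di, eq_neg_of_add_eq_zero_left hζ]; simp
  have h5 : I (E ζ) = I (D v) + A • I (E v) := by rw [hv]; simp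
  constructor
  · simp only [map_add, map_smul, h.ee, h.eie, h3, h1, map_zero, zero_add, add_zero, h.de, h4,
      h.di v, h5, smul_zero, smul_neg, smul_add]
    simp only [map_neg, smul_neg, smul_smul, mul_comm B A]
    abel
  · simp only [map_add, map_smul, h.ee, h.eie, h.ii, h.iei, add_zero, zero_add, map_neg,
      smul_neg, smul_zero]
    have h7 := h.ie ζ
    nth_rewrite 1 [← h7]
    rw [h5, h.di]
    abel

theorem core3 (A B : R) (ω v : T) (hω : D ω + (A * B) • E ω = 0)
    (hv : A • I (E ω) + E (I ω) = D v + B • E v) :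
    (D (I (E ω) + E v) + A • E (I (E ω) + E v) = 0) ∧
    (ω - (I (E (I (E ω) + E v)) + B • E (I (I (E ω) + E v))) =
      D (E (I v)) + (A * B) • E (E (I v))) := by
  have h1 : A • E ω = E (D v) := by
    have := congrArg E hv
    simpa [h.ee, h.eie] using this
  have h2 : E (D ω) = 0 := by
    rw [eq_neg_of_add_eq_zero_left hω]; simp [h.ee]
  have h3 : E (I ω) = E (I (D v)) + B • E v := by
    have := congrArg (fun x => E (I x)) hv
    simpa [h.ii, h.eie, h.iei] using this
  constructor
  · simp only [map_add, h.ee, h.eie, add_zero, h.di, h.de, h2, h1, map_zero, neg_zero]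
    abel
  · simp only [map_add, h.ee, h.eie, h.ii, add_zero, zero_add, smul_zero]
    have h7 := h.ie ω
    nth_rewrite 1 [← h7]
    rw [h3, h.de, h.di]
    simp only [map_neg]
    abel

end CAR

end Pool.Agent.FMod
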