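import Mathlib

/-!
Definitions: the Frobenius functor over a ring of prime characteristic, F-modules, generating
morphisms, F-finite F-modules, Koszul cohomology of a sequence of ring elements.
-/

set_option autoImplicit false

open CategoryTheory CategoryTheory.Limits

namespace Pool.Agent.FMod

universe u

/-- The Frobenius (Peskine–Szpiro) functor: base change along `r ↦ r ^ p`. -/
noncomputable abbrev Frob (R : Type u) [CommRing R] (p : ℕ) [Fact p.Prime] [CharP R p] :
    ModuleCat.{u} R ⥤ ModuleCat.{u} R :=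
  ModuleCat.extendScalars.{u} (frobenius R p)

section

variable {R : Type u} [CommRing R] {p : ℕ} [Fact p.Prime] [CharP R p]

/-- The modules `M₀, F(M₀), F(F(M₀)), …`. -/
noncomputable def iter (p : ℕ) [Fact p.Prime] [CharP R p] (M₀ : ModuleCat.{u} R) :
    ℕ → ModuleCat.{u} R
  | 0 => M₀
  | e + 1 => (Frob R p).obj (iter p M₀ e)

/-- The maps `β, F(β), F(F(β)), …` of the system
`M₀ ⟶ F(M₀) ⟶ F(F(M₀)) ⟶ …` attached to `β : M₀ ⟶ F(M₀)`. -/
noncomputable def iterMap {M₀ : ModuleCat.{u} R} (β : M₀ ⟶ (Frob R p).obj M₀) :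
    (e : ℕ) → (iter p M₀ e ⟶ iter p M₀ (e + 1))
  | 0 => β
  | e + 1 => (Frob R p).map (iterMap β e)

/-- The system `M₀ ⟶ F(M₀) ⟶ F(F(M₀)) ⟶ …` as a functor on `ℕ`. -/
noncomputable abbrev system {M₀ : ModuleCat.{u} R} (β : M₀ ⟶ (Frob R p).obj M₀) :
    ℕ ⥤ ModuleCat.{u} R :=
  Functor.ofSequence (iterMap β)

/-- `β : M₀ ⟶ F(M₀)` is a generating morphism of the F-module `(M, θ)`: the module `M` is the
colimit of the system `M₀ ⟶ F(M₀) ⟶ …`, and `θ : M ≅ F(M)` is induced by the vertical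
maps `β, F(β), …` from this system to its shift, whose colimit is `F(M)`. -/
def IsGenerating {M : ModuleCat.{u} R} (θ : M ≅ (Frob R p).obj M)
    {M₀ : ModuleCat.{u} R} (β : M₀ ⟶ (Frob R p).obj M₀) : Prop :=
  ∃ ι : system β ⟶ (Functor.const ℕ).obj M,
    Nonempty (IsColimit (Cocone.mk M ι)) ∧
    ∀ e : ℕ, ι.app e ≫ θ.hom = iterMap β e ≫ (Frob R p).map (ι.app e)

/-- The F-module `(M, θ)` is F-finite: it has a generating morphism `β : M₀ ⟶ F(M₀)` with `M₀` a
finitely generated module. -/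
def IsFFinite {M : ModuleCat.{u} R} (θ : M ≅ (Frob R p).obj M) : Prop :=
  ∃ (M₀ : ModuleCat.{u} R) (β : M₀ ⟶ (Frob R p).obj M₀), Module.Finite R M₀ ∧ IsGenerating θ β

end

/-- The sign `(-1) ^ #{l ∈ S : l < j}`. -/
def ksign {c : ℕ} (j : Fin c) (S : Finset (Fin c)) : ℤ := (-1) ^ (S.filter (· < j)).card

section

variable {R : Type*} [CommRing R] {c : ℕ}

/-- The degree `i` term of the Koszul cocomplex of `N`: `⋀ⁱ R^c ⊗ N`, written as the functions
from the set of `i`-element subsets of `{0, …, c-1}` to `N` (coefficients of the basis vectors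
`e_S`). -/
abbrev KCochain (c : ℕ) (N : Type*) (i : ℕ) : Type _ := {S : Finset (Fin c) // S.card = i} → N

/-- The differential `ω ↦ (∑ j, f j • e_j) ∧ ω` of the Koszul cocomplex. -/
def kd (f : Fin c → R) (N : Type*) [AddCommGroup N] [Module R N] (i : ℕ) :
    KCochain c N i →ₗ[R] KCochain c N (i + 1) where
  toFun ω := fun S => ∑ j ∈ S.1.attach, f j.1 • ksign j.1 S.1 •
    ω ⟨S.1.erase j.1, by rw [Finset.card_erase_of_mem j.2, S.2, Nat.add_sub_cancel]⟩
  map_add' x y := by
    funext S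
    simp only [Pi.add_apply, smul_add, Finset.sum_add_distrib]
  map_smul' r x := by
    funext S
    simp only [Pi.smul_apply, RingHom.id_apply, Finset.smul_sum]
    refine Finset.sum_congr rfl fun j _ => ?_
    rw [smul_comm (ksign j.1 S.1) r, smul_comm (f j.1) r]

/-- The coboundaries in degree `i`. -/
def kB (f : Fin c → R) (N : Type*) [AddCommGroup N] [Module R N] :
    (i : ℕ) → Submodule R (KCochain c N i)
  | 0 => ⊥
  | i + 1 => LinearMap.range (kd f N i)

/-- The Koszul cohomology `Hⁱ(K(f; N))`: cocycles modulo coboundaries. -/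
abbrev KH (f : Fin c → R) (N : Type*) [AddCommGroup N] [Module R N] (i : ℕ) : Type _ :=
  LinearMap.ker (kd f N i) ⧸ (kB f N i).submoduleOf (LinearMap.ker (kd f N i))

end

end Pool.Agent.FMod
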