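import Pool.Agent.FMod.Main

/-!
From cocycles and coboundaries to the support of Koszul cohomology.
-/

set_option autoImplicit false

namespace Pool.Agent.FMod

variable {c : ℕ} {R M : Type*} [CommRing R] [AddCommGroup M] [Module R M]

/-- Extension by zero of a cochain of degree `i`. -/
def ext0 (R : Type*) [CommRing R] [Module R M] (i : ℕ) :
    KCochain c M i →ₗ[R] (Finset (Fin c) → M) where
  toFun ω := fun S => if h : S.card = i then ω ⟨S, h⟩ else 0
  map_add' x y := by
    funext S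
    by_cases h : S.card = i <;> simp [h]
  map_smul' r x := by
    funext S
    by_cases h : S.card = i <;> simp [h]

/-- Restriction to the subsets of size `i`. -/
def res0 (i : ℕ) (ω : Finset (Fin c) → M) : KCochain c M i := fun S => ω S.1

lemma res0_ext0 (i : ℕ) (ω : KCochain c M i) : res0 i (ext0 R i ω) = ω := by
  funext S
  simp [res0, ext0, S.2]

lemma ext0_res0 (i : ℕ) {ω : Finset (Fin c) → M} (hω : ω ∈ Tin c (⊤ : Submodule R M) i) :
    ext0 R i (res0 i ω) = ω := by
  funext S
  by_cases h : S.card = i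
  · simp [res0, ext0, h]
  · rw [(hω S).2 (by exact_mod_cast h)]
    simp [ext0, h]

lemma ext0_mem (i : ℕ) (ω : KCochain c M i) :
    ext0 R i ω ∈ Tin c (⊤ : Submodule R M) i := by
  intro S
  refine ⟨Submodule.mem_top, fun h => ?_⟩
  have h' : ¬ S.card = i := by exact_mod_cast h
  simp [ext0, h']

lemma kd_res0 (f : Fin c → R) (i : ℕ) (ω : Finset (Fin c) → M) :
    kd f M i (res0 i ω) = res0 (i + 1) (dOp f (fun _ => 1) ω) := by
  funext S
  have h1 : res0 (i + 1) (dOp f (fun _ => 1) ω) S =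
      ∑ j, f j • (if j ∈ S.1 then ksign j S.1 • ω (S.1.erase j) else 0) := by
    simp only [res0, dOp_apply, Finset.sum_apply, Pi.smul_apply, eOp_apply, pow_one]
  have h2 : kd f M i (res0 i ω) S =
      ∑ j ∈ S.1.attach, f j.1 • ksign j.1 S.1 • ω (S.1.erase j.1) := rfl
  rw [h1, h2, Finset.sum_attach S.1 (fun j => f j • ksign j S.1 • ω (S.1.erase j))]
  simp only [smul_ite, smul_zero]
  rw [Finset.sum_ite_mem, Finset.univ_inter]

lemma ker_kd_iff (f : Fin c → R) (i : ℕ) (z : KCochain c M i) :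
    z ∈ LinearMap.ker (kd f M i) ↔
      ext0 R i z ∈ Z f (fun _ => 1) (⊤ : Submodule R M) i := by
  rw [LinearMap.mem_ker, mem_Z]
  constructor
  · intro h
    refine ⟨ext0_mem i z, ?_⟩
    have h1 : dOp f (fun _ => 1) (ext0 R i z) ∈
        Tin c (⊤ : Submodule R M) ((i + 1 : ℕ) : ℤ) :=
      dOp_mem (by push_cast; ring) (ext0_mem i z) f _
    rw [← ext0_res0 (R := R) (i + 1) h1, ← kd_res0, res0_ext0, h, map_zero]
  · rintro ⟨-, h⟩
    rw [← res0_ext0 (R := R) i z, kd_res0, h]
    rfl

lemma kB_iff (f : Fin c → R) (i : ℕ) (z : KCochain c M i) :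
    z ∈ kB f M i ↔ ext0 R i z ∈ B f (fun _ => 1) (⊤ : Submodule R M) i := by
  cases i with
  | zero =>
    change z ∈ (⊥ : Submodule R _) ↔ _
    rw [Submodule.mem_bot, mem_B]
    constructor
    · rintro rfl
      exact ⟨0, Submodule.zero_mem _, by rw [map_zero, map_zero]⟩
    · rintro ⟨v, hv, hv'⟩
      have h0 : v = 0 := by
        funext S
        refine (hv S).2 ?_
        push_cast
        omega
      rw [h0, map_zero] at hv'
      rw [← res0_ext0 (R := R) 0 z, ← hv']
      rfl
  | succ i =>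
    change z ∈ LinearMap.range (kd f M i) ↔ _
    rw [LinearMap.mem_range, mem_B]
    constructor
    · rintro ⟨w, rfl⟩
      refine ⟨ext0 R i w, ?_, ?_⟩
      · have := ext0_mem (R := R) i w
        rwa [show ((i + 1 : ℕ) : ℤ) - 1 = i by push_cast; ring]
      · have h1 : dOp f (fun _ => 1) (ext0 R i w) ∈
            Tin c (⊤ : Submodule R M) ((i + 1 : ℕ) : ℤ) :=
          dOp_mem (by push_cast; ring) (ext0_mem i w) f _
        rw [← ext0_res0 (R := R) (i + 1) h1, ← kd_res0, res0_ext0]
    · rintro ⟨v, hv, hv'⟩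
      refine ⟨res0 i v, ?_⟩
      rw [kd_res0, hv', res0_ext0]

/-- The coboundaries are cocycles. -/
lemma kB_le_ker (f : Fin c → R) (i : ℕ) : kB f M i ≤ LinearMap.ker (kd f M i) := by
  intro z hz
  rw [ker_kd_iff]
  exact B_le_Z ((kB_iff f i z).1 hz)

/-- A prime is outside the support iff every cocycle becomes a coboundary after multiplication
by an element outside the prime. -/
lemma notMem_support_iff (f : Fin c → R) (i : ℕ) (P : PrimeSpectrum R) :
    P ∉ Module.support R (KH f M i) ↔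
      ∀ z ∈ Z f (fun _ => 1) (⊤ : Submodule R M) i, ∃ s ∈ P.asIdeal.primeCompl,
        s • z ∈ B f (fun _ => 1) (⊤ : Submodule R M) i := by
  rw [Module.notMem_support_iff']
  constructor
  · intro h z hz
    have hzz : ext0 R i (res0 i z) = z := ext0_res0 i (mem_Z.1 hz).1
    have hk : res0 i z ∈ LinearMap.ker (kd f M i) := by
      rw [ker_kd_iff, hzz]; exact hz
    obtain ⟨r, hr, hr'⟩ := h (Submodule.Quotient.mk ⟨res0 i z, hk⟩)
    refine ⟨r, hr, ?_⟩
    rw [← Submodule.Quotient.mk_smul, Submodule.Quotient.mk_eq_zero] at hr'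
    have h2 := (kB_iff f i ((r • (⟨res0 i z, hk⟩ : LinearMap.ker (kd f M i))).1)).1 hr'
    have h3 : ext0 R i ((r • (⟨res0 i z, hk⟩ : LinearMap.ker (kd f M i))).1) = r • z := by
      rw [Submodule.coe_smul, map_smul, hzz]
    rw [← h3]
    exact h2
  · intro h x
    obtain ⟨⟨z, hz⟩, rfl⟩ := Submodule.Quotient.mk_surjective _ x
    obtain ⟨s, hs, hs'⟩ := h _ ((ker_kd_iff f i z).1 hz)
    refine ⟨s, hs, ?_⟩
    rw [← Submodule.Quotient.mk_smul, Submodule.Quotient.mk_eq_zero]
    change s • z ∈ kB f M i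
    rw [kB_iff, map_smul]
    exact hs'

/-- Closedness of the support from the data of a `p`-linear map. -/
theorem isClosed_support [IsNoetherianRing R] {p : ℕ} (hp : 1 ≤ p) (D : Data R M p)
    (f : Fin c → R) (i : ℕ) : IsClosed (Module.support R (KH f M i)) := by
  rw [← isOpen_compl_iff, isOpen_iff_forall_mem_open]
  intro P hP
  have h1 := (notMem_support_iff f i P).1 hP
  obtain ⟨s, hs, hs'⟩ := vanish_nbhd D hp P.asIdeal.primeCompl h1
  refine ⟨PrimeSpectrum.basicOpen s, ?_, (PrimeSpectrum.basicOpen s).2, hs⟩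
  intro Q hQ
  have hQ' : s ∉ Q.asIdeal := hQ
  refine (notMem_support_iff f i Q).2 fun z hz => ?_
  obtain ⟨k, hk⟩ := hs' z hz
  exact ⟨s ^ k, fun h => hQ' (Q.2.mem_of_pow_mem k h), hk⟩

end Pool.Agent.FMod
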