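import Pool.Agent.FMod.Flat
import Pool.Agent.FMod.Support

/-!
An F-finite F-module over a noetherian ring with flat Frobenius endomorphism gives the data of
the main induction.
-/

set_option autoImplicit false
set_option backward.isDefEq.respectTransparency false

open CategoryTheory CategoryTheory.Limits
open scoped TensorProduct

namespace Pool.Agent.FMod

universe u

variable {R : Type u} [CommRing R] {p : ℕ} [Fact p.Prime] [CharP R p]

section

variable {M : ModuleCat.{u} R} (θ : M ≅ (Frob R p).obj M)

/-- The element `s ⊗ m` of `F(M)`. -/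
noncomputable def tm (p : ℕ) [Fact p.Prime] [CharP R p] (M : ModuleCat.{u} R) (s : R) (m : M) :
    (Frob R p).obj M :=
  show (Fr R p) ⊗[R] M from (show Fr R p from s) ⊗ₜ[R] m

/-- The element `1 ⊗ m` of `F(M)`. -/
noncomputable def oneT (p : ℕ) [Fact p.Prime] [CharP R p] (M : ModuleCat.{u} R) :
    M →+ (Frob R p).obj M where
  toFun m := tm p M 1 m
  map_zero' := TensorProduct.tmul_zero _ _
  map_add' _ _ := TensorProduct.tmul_add _ _ _

lemma smul_tm (s s' : R) (m : M) : s • tm p M s' m = tm p M (s * s') m := rfl

lemma tm_smul (r s : R) (m : M) : tm p M s (r • m) = tm p M (r ^ p * s) m :=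
  (TensorProduct.smul_tmul r (show Fr R p from s) m).symm

lemma oneT_smul (r : R) (m : M) : oneT p M (r • m) = r ^ p • oneT p M m := by
  change tm p M 1 (r • m) = r ^ p • tm p M 1 m
  rw [tm_smul, smul_tm]

lemma smul_oneT (s : R) (m : M) : s • oneT p M m = tm p M s m := by
  change s • tm p M 1 m = _
  rw [smul_tm, mul_one]

/-- The `p`-linear endomorphism of an F-module. -/
noncomputable def frobM : M →+ M :=
  (θ.inv.hom.toAddMonoidHom).comp (oneT p M)

lemma frobM_apply (m : M) : frobM θ m = θ.inv.hom (oneT p M m) := rfl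

lemma frobM_smul (r : R) (m : M) : frobM θ (r • m) = r ^ p • frobM θ m := by
  rw [frobM_apply, oneT_smul, map_smul]; rfl

lemma Phi_frobM (x : (Fr R p) ⊗[R] M) :
    Phi (frobM θ) (frobM_smul θ) x = θ.inv.hom (show (Frob R p).obj M from x) := by
  induction x using TensorProduct.induction_on with
  | zero => rw [map_zero]; exact (map_zero θ.inv.hom).symm
  | tmul s m =>
    rw [Phi_tmul, frobM_apply, ← map_smul, smul_oneT]
    rfl
  | add x y hx hy => rw [map_add, hx, hy]; exact (map_add θ.inv.hom _ _).symm

lemma Phi_frobM_injective : Function.Injective (Phi (frobM θ) (frobM_smul θ)) := by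
  intro x y h
  rw [Phi_frobM, Phi_frobM] at h
  have := congrArg θ.hom.hom h
  have e : ∀ z : (Frob R p).obj M, θ.hom.hom (θ.inv.hom z) = z := fun z => by
    have := congrArg (fun φ => φ.hom z) θ.inv_hom_id
    exact this
  rw [e, e] at this
  exact this

end

section

variable {M : ModuleCat.{u} R} {θ : M ≅ (Frob R p).obj M}

lemma legs_succ {M₀ : ModuleCat.{u} R} {β : M₀ ⟶ (Frob R p).obj M₀}
    {ι : system β ⟶ (Functor.const ℕ).obj M}
    (h : ∀ e : ℕ, ι.app e ≫ θ.hom = iterMap β e ≫ (Frob R p).map (ι.app e)) (e : ℕ) :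
    ι.app (e + 1) ≫ θ.hom = (Frob R p).map (ι.app e) := by
  have h1 : iterMap β e ≫ ι.app (e + 1) = ι.app e := by
    have h2 := ι.naturality (homOfLE (Nat.le_add_right e 1))
    rw [Functor.ofSequence_map_homOfLE_succ] at h2
    rw [h2]
    exact Category.comp_id _
  rw [h (e + 1)]
  change (Frob R p).map (iterMap β e) ≫ (Frob R p).map (ι.app (e + 1)) = _
  rw [← Functor.map_comp, h1]

/-- The data of the main induction. -/
theorem data_of_ffinite [Module.Flat R (Fr R p)] (h : IsFFinite θ) : Nonempty (Data R M p) := by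
  obtain ⟨M₀, β, hfin, ι, ⟨hcol⟩, hcomp⟩ := h
  have hleg := legs_succ hcomp
  have hleg' : ∀ e, ι.app (e + 1) = (Frob R p).map (ι.app e) ≫ θ.inv := fun e => by
    rw [← hleg e, Category.assoc, θ.hom_inv_id]
    exact (Category.comp_id _).symm
  have hnat : ∀ e, iterMap β e ≫ ι.app (e + 1) = ι.app e := by
    intro e
    have h2 := ι.naturality (homOfLE (Nat.le_add_right e 1))
    rw [Functor.ofSequence_map_homOfLE_succ] at h2
    rw [h2]
    exact Category.comp_id _
  let L : (e : ℕ) → (iter p M₀ e →ₗ[R] M) := fun e => (ι.app e).hom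
  have hL1 : ∀ e (x : iter p M₀ e), L e x = L (e + 1) ((iterMap β e).hom x) := by
    intro e x
    have := congrArg (fun φ => φ.hom x) (hnat e)
    exact this.symm
  have hL2 : ∀ e (s : R) (x : iter p M₀ e),
      L (e + 1) (tm p (iter p M₀ e) s x) = s • frobM θ (L e x) := by
    intro e s x
    change (ι.app (e + 1)).hom _ = _
    rw [hleg' e]
    change θ.inv.hom (((Frob R p).map (ι.app e)).hom (tm p (iter p M₀ e) s x)) = _
    have h3 : ((Frob R p).map (ι.app e)).hom (tm p (iter p M₀ e) s x) = tm p M s (L e x) := rfl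
    rw [h3, ← smul_oneT, map_smul]
    rfl
  refine ⟨{ u := frobM θ
            u_smul := frobM_smul θ
            Mf := fun e => LinearMap.range (L e)
            fg := ?_
            le_one := ?_
            succ := ?_
            union := ?_
            flat := ?_ }⟩
  · have : Module.Finite R (iter p M₀ 0) := hfin
    exact (Module.Finite.iff_fg).1 (Module.Finite.range (L 0))
  · rintro _ ⟨x, rfl⟩
    exact ⟨(iterMap β 0).hom x, (hL1 0 x).symm⟩
  · intro e
    apply le_antisymm
    · rintro _ ⟨x, rfl⟩
      change (Fr R p) ⊗[R] (iter p M₀ e) at x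
      induction x using TensorProduct.induction_on with
      | zero => exact (map_zero (L (e + 1))).symm ▸ Submodule.zero_mem _
      | tmul s y =>
        have h4 := hL2 e (show R from s) y
        change L (e + 1) (tm p (iter p M₀ e) (show R from s) y) ∈ _
        rw [h4]
        exact Submodule.smul_mem _ _ (Submodule.subset_span ⟨L e y, ⟨y, rfl⟩, rfl⟩)
      | add x y hx hy =>
        have h5 : L (e + 1) (show iter p M₀ (e + 1) from x + y) =
          L (e + 1) (show iter p M₀ (e + 1) from x) + L (e + 1) (show iter p M₀ (e + 1) from y) :=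
          map_add (L (e + 1)) (show iter p M₀ (e + 1) from x) (show iter p M₀ (e + 1) from y)
        change L (e + 1) (show iter p M₀ (e + 1) from x + y) ∈ _
        rw [h5]
        exact Submodule.add_mem _ hx hy
    · rw [Submodule.span_le]
      rintro _ ⟨_, ⟨x, rfl⟩, rfl⟩
      refine ⟨tm p (iter p M₀ e) 1 x, ?_⟩
      rw [hL2, one_smul]
  · have hmono : Monotone (fun e => LinearMap.range (L e)) := by
      apply monotone_nat_of_le_succ
      rintro e _ ⟨x, rfl⟩
      exact ⟨(iterMap β e).hom x, (hL1 e x).symm⟩
    let N : Submodule R M := ⨆ e, LinearMap.range (L e)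
    have hN : N = ⊤ := by
      let q : M ⟶ ModuleCat.of R (M ⧸ N) := ModuleCat.ofHom N.mkQ
      have hq : q = 0 := by
        apply hcol.hom_ext
        intro e
        apply ModuleCat.hom_ext
        apply LinearMap.ext
        intro x
        change N.mkQ (L e x) = 0
        rw [Submodule.mkQ_apply, Submodule.Quotient.mk_eq_zero]
        exact Submodule.mem_iSup_of_mem e ⟨x, rfl⟩
      rw [eq_top_iff]
      intro m _
      have := congrArg (fun φ => φ.hom m) hq
      change N.mkQ m = 0 at this
      rwa [Submodule.mkQ_apply, Submodule.Quotient.mk_eq_zero] at this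
    intro m
    have hm : m ∈ N := hN ▸ Submodule.mem_top
    exact (Submodule.mem_iSup_of_directed _ hmono.directed_le).1 hm
  · intro c W f n ω hω h0
    exact ker_span (p := p) (vT c (frobM θ)) (vT_smul (frobM_smul θ))
      (Phi_pi_injective (p := p) (frobM θ) (frobM_smul θ) (Phi_frobM_injective θ) c) W
      (dOp f n) (dOp f (p • n)) (fun v => (vT_dOp (frobM_smul θ) f n v).symm) hω h0

/-- Closedness of the support for noetherian rings of characteristic `p` with flat Frobenius
endomorphism. -/
theorem isClosed_support_of_flat [IsNoetherianRing R] [Module.Flat R (Fr R p)]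
    (h : IsFFinite θ) {c : ℕ} (f : Fin c → R) (i : ℕ) :
    IsClosed (Module.support R (KH f M i)) := by
  obtain ⟨D⟩ := data_of_ffinite h
  exact isClosed_support (Fact.out : p.Prime).one_le D f i

end

end Pool.Agent.FMod
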