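import Pool.Agent.FMod.Induct

/-!
Kernels of linear maps and `p`-linear maps when the Frobenius endomorphism is flat.
-/

set_option autoImplicit false

open scoped TensorProduct

namespace Pool.Agent.FMod

universe u

variable {R : Type u} [CommRing R] {p : ℕ} [Fact p.Prime] [CharP R p]

/-- The ring `R`, regarded as an `R`-module through the Frobenius endomorphism. -/
noncomputable abbrev Fr (R : Type u) [CommRing R] (p : ℕ) [Fact p.Prime] [CharP R p] : ModuleCat.{u} R :=
  (ModuleCat.restrictScalars (frobenius R p)).obj (ModuleCat.of R R)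

lemma Fr_smul (r : R) (s : Fr R p) : r • s = (r ^ p * (show R from s) : R) := rfl

section

variable {W V : Type*} [AddCommGroup W] [Module R W] [AddCommGroup V] [Module R V]

/-- The additive map `s ⊗ w ↦ s • g w` attached to a `p`-linear map `g`. -/
noncomputable def Phi (g : W →+ V) (hg : ∀ (r : R) (w : W), g (r • w) = r ^ p • g w) :
    (Fr R p) ⊗[R] W →+ V :=
  TensorProduct.liftAddHom
    { toFun := fun s =>
        { toFun := fun w => (show R from s) • g w
          map_zero' := by rw [map_zero, smul_zero]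
          map_add' := fun x y => by rw [map_add, smul_add] }
      map_zero' := by
        ext w
        exact zero_smul R (g w)
      map_add' := fun x y => by
        ext w
        exact add_smul (show R from x) (show R from y) (g w) }
    (by
      intro r s w
      change (r ^ p * (show R from s) : R) • g w = (show R from s) • g (r • w)
      rw [hg, smul_smul, mul_comm])

lemma Phi_tmul (g : W →+ V) (hg : ∀ (r : R) (w : W), g (r • w) = r ^ p • g w)
    (s : Fr R p) (w : W) : Phi g hg (s ⊗ₜ w) = (show R from s) • g w := rfl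

lemma Phi_mem_span (g : W →+ V) (hg : ∀ (r : R) (w : W), g (r • w) = r ^ p • g w)
    (x : (Fr R p) ⊗[R] W) : Phi g hg x ∈ Submodule.span R (Set.range g) := by
  induction x using TensorProduct.induction_on with
  | zero => rw [map_zero]; exact Submodule.zero_mem _
  | tmul s w =>
    rw [Phi_tmul]
    exact Submodule.smul_mem _ _ (Submodule.subset_span ⟨w, rfl⟩)
  | add x y hx hy => rw [map_add]; exact Submodule.add_mem _ hx hy

lemma exists_smul (g : W →+ V) (hg : ∀ (r : R) (w : W), g (r • w) = r ^ p • g w) (r : R)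
    (a : (Fr R p) ⊗[R] W) : ∃ x, Phi g hg x = r • Phi g hg a := by
  induction a using TensorProduct.induction_on with
  | zero => exact ⟨0, by simp⟩
  | tmul s w =>
    refine ⟨(show Fr R p from (r * (show R from s) : R)) ⊗ₜ w, ?_⟩
    rw [Phi_tmul, Phi_tmul]
    exact mul_smul _ _ _
  | add x y hx hy =>
    obtain ⟨a, ha⟩ := hx
    obtain ⟨b, hb⟩ := hy
    exact ⟨a + b, by rw [map_add, map_add, smul_add, ha, hb]⟩

lemma exists_of_mem_span (g : W →+ V) (hg : ∀ (r : R) (w : W), g (r • w) = r ^ p • g w)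
    {v : V} (hv : v ∈ Submodule.span R (Set.range g)) : ∃ x, Phi g hg x = v := by
  induction hv using Submodule.span_induction with
  | mem y hy =>
    obtain ⟨w, rfl⟩ := hy
    exact ⟨(show Fr R p from (1 : R)) ⊗ₜ w, by rw [Phi_tmul]; exact one_smul R (g w)⟩
  | zero => exact ⟨0, map_zero _⟩
  | add y z _ _ hy hz =>
    obtain ⟨a, rfl⟩ := hy
    obtain ⟨b, rfl⟩ := hz
    exact ⟨a + b, map_add _ _ _⟩
  | smul r y _ hy =>
    obtain ⟨a, rfl⟩ := hy
    exact exists_smul g hg r a

lemma Phi_lTensor {W' V' : Type*} [AddCommGroup W'] [Module R W'] [AddCommGroup V'] [Module R V']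
    (g : W →+ V) (hg : ∀ (r : R) (w : W), g (r • w) = r ^ p • g w)
    (g' : W' →+ V') (hg' : ∀ (r : R) (w : W'), g' (r • w) = r ^ p • g' w)
    (D : W →ₗ[R] W') (D' : V →ₗ[R] V') (hD : ∀ w, D' (g w) = g' (D w))
    (x : (Fr R p) ⊗[R] W) : Phi g' hg' (D.lTensor (Fr R p) x) = D' (Phi g hg x) := by
  induction x using TensorProduct.induction_on with
  | zero => simp
  | tmul s w => rw [LinearMap.lTensor_tmul, Phi_tmul, Phi_tmul, map_smul, hD]
  | add x y hx hy => rw [map_add, map_add, map_add, map_add, hx, hy]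

end

/-- Compatibility of kernels with `p`-linear maps. -/
theorem ker_span {V : Type*} [AddCommGroup V] [Module R V] [Module.Flat R (Fr R p)]
    (u : V →+ V) (hu : ∀ (r : R) (v : V), u (r • v) = r ^ p • u v)
    (hinj : Function.Injective (Phi (p := p) u hu))
    (W : Submodule R V) (D D' : V →ₗ[R] V) (hD : ∀ v, D' (u v) = u (D v))
    {ω : V} (hω : ω ∈ Submodule.span R (u '' (W : Set V))) (h0 : D' ω = 0) :
    ω ∈ Submodule.span R (u '' ((W ⊓ LinearMap.ker D : Submodule R V) : Set V)) := by
  -- the restriction of `u` to `W`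
  let g : W →+ V := u.comp W.subtype.toAddMonoidHom
  have hg : ∀ (r : R) (w : W), g (r • w) = r ^ p • g w := fun r w => hu r w
  have hrange : Set.range g = u '' (W : Set V) := by
    ext x
    constructor
    · rintro ⟨w, rfl⟩; exact ⟨w, w.2, rfl⟩
    · rintro ⟨w, hw, rfl⟩; exact ⟨⟨w, hw⟩, rfl⟩
  rw [← hrange] at hω
  obtain ⟨ξ, hξ⟩ := exists_of_mem_span g hg hω
  let DW : W →ₗ[R] V := D.comp W.subtype
  have h1 := Phi_lTensor (p := p) g hg u hu DW D' (fun w => hD w) ξ
  rw [hξ, h0] at h1
  have h2 : DW.lTensor (Fr R p) ξ = 0 := hinj (by rw [h1, map_zero])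
  have hex : Function.Exact (LinearMap.ker DW).subtype DW := by
    intro y
    constructor
    · intro hy
      exact ⟨⟨y, hy⟩, rfl⟩
    · rintro ⟨y', rfl⟩
      exact y'.2
  obtain ⟨η, hη⟩ := (Module.Flat.lTensor_exact (Fr R p) hex ξ).1 h2
  let g' : LinearMap.ker DW →+ V := g.comp (LinearMap.ker DW).subtype.toAddMonoidHom
  have hg' : ∀ (r : R) (w : LinearMap.ker DW), g' (r • w) = r ^ p • g' w := fun r w => hg r w
  have h3 := Phi_lTensor (p := p) g' hg' g hg (LinearMap.ker DW).subtype LinearMap.id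
    (fun w => rfl) η
  rw [hη, hξ] at h3
  rw [h3]
  refine Submodule.span_mono ?_ (Phi_mem_span g' hg' η)
  rintro _ ⟨w, rfl⟩
  exact ⟨w.1.1, ⟨w.1.2, w.2⟩, rfl⟩

/-- Injectivity of `s ⊗ m ↦ s • u m` passes to finite products. -/
theorem Phi_pi_injective {M : Type*} [AddCommGroup M] [Module R M] (u : M →+ M)
    (hu : ∀ (r : R) (m : M), u (r • m) = r ^ p • u m)
    (hinj : Function.Injective (Phi (p := p) u hu)) (c : ℕ) :
    Function.Injective (Phi (p := p) (vT c u) (vT_smul hu)) := by
  classical
  rw [injective_iff_map_eq_zero]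
  intro ξ hξ
  -- all components vanish
  have h1 : ∀ S : Finset (Fin c),
      (LinearMap.proj S : (Finset (Fin c) → M) →ₗ[R] M).lTensor (Fr R p) ξ = 0 := by
    intro S
    apply hinj
    rw [Phi_lTensor (p := p) (vT c u) (vT_smul hu) u hu (LinearMap.proj S) (LinearMap.proj S)
      (fun w => rfl), hξ, map_zero, map_zero]
  have h2 : (LinearMap.id : (Finset (Fin c) → M) →ₗ[R] (Finset (Fin c) → M)) =
      ∑ S, (LinearMap.single R (fun _ => M) S).comp (LinearMap.proj S) := by
    ext S x S'
    simp [Pi.single_apply]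
  have h3 : (LinearMap.id : (Finset (Fin c) → M) →ₗ[R] (Finset (Fin c) → M)).lTensor
      (Fr R p) ξ = ξ := by simp
  rw [h2] at h3
  rw [← h3, ← LinearMap.coe_lTensorHom, map_sum, LinearMap.sum_apply]
  refine Finset.sum_eq_zero fun S _ => ?_
  rw [LinearMap.coe_lTensorHom, LinearMap.lTensor_comp, LinearMap.comp_apply, h1, map_zero]

end Pool.Agent.FMod
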