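import Pool.Agent.FMod.FlatLocal

/-!
The Frobenius endomorphism of a regular ring of prime characteristic is flat.
-/

set_option autoImplicit false

namespace Pool.Agent.FMod

universe u

section

variable {R : Type u} [CommRing R] {p : ℕ} [Fact p.Prime] [CharP R p]

/-- The submodule generated by the `p`-th powers of the relations between the `f i`. -/
def relSpan (p : ℕ) {l : ℕ} (f : Fin l → R) : Submodule R (Fin l → R) :=
  Submodule.span R {y | ∃ a : Fin l → R, ∑ i, f i * a i = 0 ∧ y = fun i => a i ^ p}

lemma trivial_of_mem {l : ℕ} {f : Fin l → R} {x : Fin l → R} (h : x ∈ relSpan p f) :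
    Module.IsTrivialRelation f (fun i => fr p (x i)) := by
  obtain ⟨k, y, g, hg⟩ := Submodule.mem_span_set'.1 h
  choose a ha1 ha2 using fun j => (g j).2
  refine ⟨k, fun i j => a j i, fun j => fr p (y j), fun i => ?_, ha1⟩
  have h1 : x i = ∑ j, a j i ^ p * y j := by
    rw [← hg, Finset.sum_apply]
    refine Finset.sum_congr rfl fun j _ => ?_
    rw [Pi.smul_apply, ha2 j, smul_eq_mul, mul_comm]
  change fr p (x i) = _
  rw [h1]
  rfl

lemma charP_localization (P : Ideal R) [P.IsPrime] : CharP (Localization.AtPrime P) p := by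
  rw [CharP.charP_iff_prime_eq_zero (Fact.out : p.Prime)]
  rw [← map_natCast (algebraMap R (Localization.AtPrime P)) p, CharP.cast_eq_zero, map_zero]

lemma mem_of_local [IsRegularRing R] {l : ℕ} {f : Fin l → R} {x : Fin l → R}
    (h : ∑ i, f i ^ p * x i = 0) (P : Ideal R) [P.IsPrime] :
    ∃ s ∉ P, s • x ∈ relSpan p f := by
  have hchar : CharP (Localization.AtPrime P) p := charP_localization P
  have hflat : Module.Flat (Localization.AtPrime P) (Fr (Localization.AtPrime P) p) :=
    flat_of_regular_local
  have hrel : ∑ i, (algebraMap R (Localization.AtPrime P) (f i)) •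
      fr p (algebraMap R (Localization.AtPrime P) (x i)) = 0 := by
    have h1 : ∑ i, (algebraMap R (Localization.AtPrime P) (f i)) •
      fr p (algebraMap R (Localization.AtPrime P) (x i)) =
      fr p (∑ i, (algebraMap R (Localization.AtPrime P) (f i)) ^ p *
        (algebraMap R (Localization.AtPrime P) (x i))) := rfl
    rw [h1]
    have h2 : ∑ i, (algebraMap R (Localization.AtPrime P) (f i)) ^ p *
        (algebraMap R (Localization.AtPrime P) (x i)) = 0 := by
      rw [← map_zero (algebraMap R (Localization.AtPrime P)), ← h, map_sum]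
      exact Finset.sum_congr rfl fun i _ => by rw [map_mul, map_pow]
    rw [h2]
    rfl
  obtain ⟨k, a, y, ha, hf⟩ := Module.Flat.isTrivialRelation_of_sum_smul_eq_zero hrel
  -- clear denominators
  obtain ⟨b, hb⟩ := IsLocalization.exist_integer_multiples_of_finite P.primeCompl
    (fun ij : Fin l × Fin k => a ij.1 ij.2)
  obtain ⟨b', hb'⟩ := IsLocalization.exist_integer_multiples_of_finite P.primeCompl
    (fun j : Fin k => (show Localization.AtPrime P from y j))
  choose α hα using fun ij => hb ij
  choose η hη using fun j => hb' j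
  have h1 : ∀ j, ∃ t : P.primeCompl, (t : R) * ∑ i, f i * α (i, j) = 0 := by
    intro j
    rw [← IsLocalization.map_eq_zero_iff P.primeCompl (Localization.AtPrime P), map_sum]
    have h2 : ∀ i, algebraMap R (Localization.AtPrime P) (f i * α (i, j)) =
        (algebraMap R (Localization.AtPrime P) b) *
          (algebraMap R (Localization.AtPrime P) (f i) * a i j) := by
      intro i
      rw [map_mul, hα, Algebra.smul_def]
      ring
    simp only [h2]
    rw [← Finset.mul_sum, hf, mul_zero]
  choose t ht using h1
  set T : P.primeCompl := ∏ j, t j with hT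
  have hTj : ∀ j, (T : R) * ∑ i, f i * α (i, j) = 0 := by
    intro j
    rw [hT, Submonoid.coe_finsetProd, ← Finset.mul_prod_erase Finset.univ _ (Finset.mem_univ j),
      mul_comm (t j : R), mul_assoc, ht j, mul_zero]
  have h3 : ∀ i, ∃ t' : P.primeCompl, (t' : R) *
      (((T : R) * b) ^ p * b' * x i - ∑ j, ((T : R) * α (i, j)) ^ p * η j) = 0 := by
    intro i
    rw [← IsLocalization.map_eq_zero_iff P.primeCompl (Localization.AtPrime P), map_sub, map_sum,
      sub_eq_zero]
    have h4 : algebraMap R (Localization.AtPrime P) (x i) =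
        ∑ j, (a i j) ^ p * (show Localization.AtPrime P from y j) := ha i
    rw [map_mul, h4, Finset.mul_sum]
    refine Finset.sum_congr rfl fun j _ => ?_
    rw [map_mul, map_mul, map_pow, map_pow, map_mul, map_mul, hα, hη, Algebra.smul_def,
      Algebra.smul_def]
    ring
  choose t' ht' using h3
  set T' : P.primeCompl := ∏ i, t' i with hT'
  have hTi : ∀ i, (T' : R) *
      (((T : R) * b) ^ p * b' * x i - ∑ j, ((T : R) * α (i, j)) ^ p * η j) = 0 := by
    intro i
    rw [hT', Submonoid.coe_finsetProd, ← Finset.mul_prod_erase Finset.univ _ (Finset.mem_univ i),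
      mul_comm (t' i : R), mul_assoc, ht' i, mul_zero]
  refine ⟨T' * (((T : R) * b) ^ p * b'), ?_, ?_⟩
  · exact (T' * ((T * b) ^ p * b')).2
  · have h5 : (T' * (((T : R) * b) ^ p * b')) • x =
        ∑ j, ((T' : R) * η j) • (fun i => ((T : R) * α (i, j)) ^ p) := by
      funext i
      have h6 := hTi i
      rw [mul_sub, sub_eq_zero] at h6
      rw [Pi.smul_apply, smul_eq_mul, Finset.sum_apply, mul_assoc, h6, Finset.mul_sum]
      refine Finset.sum_congr rfl fun j _ => ?_
      rw [Pi.smul_apply, smul_eq_mul]
      ring
    rw [h5]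
    refine Submodule.sum_mem _ fun j _ => Submodule.smul_mem _ _ (Submodule.subset_span ?_)
    refine ⟨fun i => (T : R) * α (i, j), ?_, rfl⟩
    rw [← hTj j, Finset.mul_sum]
    exact Finset.sum_congr rfl fun i _ => by ring

/-- Kunz: the Frobenius endomorphism of a regular ring of prime characteristic is flat. -/
theorem flat_of_regular [IsRegularRing R] : Module.Flat R (Fr R p) := by
  apply Module.Flat.of_forall_isTrivialRelation
  intro l f x h
  change Fin l → R at x
  apply trivial_of_mem (x := x)
  have h1 : ∑ i, f i ^ p * x i = 0 := h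
  let J : Ideal R := Submodule.comap (LinearMap.toSpanSingleton R (Fin l → R) x) (relSpan p f)
  have hJ : J = ⊤ := by
    by_contra hne
    obtain ⟨P, hP, hJP⟩ := Ideal.exists_le_maximal J hne
    have hPp := hP.isPrime
    obtain ⟨s, hs, hs'⟩ := mem_of_local h1 P
    exact hs (hJP hs')
  have h2 : (1 : R) ∈ J := hJ ▸ Submodule.mem_top
  have h3 : (1 : R) • x ∈ relSpan p f := h2
  rwa [one_smul] at h3

end

end Pool.Agent.FMod
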