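import Pool.Agent.FMod.Kunz

/-!
Flatness of the Frobenius endomorphism: local rings (Artin–Rees and Krull intersection), and then
all regular rings of prime characteristic.
-/

set_option autoImplicit false
set_option backward.isDefEq.respectTransparency false

open IsLocalRing RingTheory.Sequence
open scoped TensorProduct Pointwise

namespace Pool.Agent.FMod

universe u

section

variable {R : Type u} [CommRing R] {p : ℕ} [Fact p.Prime] [CharP R p]

/-- Injectivity on submodules of a module of finite length. -/
lemma inj_fl [IsLocalRing R]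
    (hinj : Function.Injective ((maximalIdeal R).subtype.lTensor (Fr R p)))
    {B : Type u} [AddCommGroup B] [Module R B] [IsArtinian R B] [IsNoetherian R B] :
    ∀ A : Submodule R B, Function.Injective (A.subtype.lTensor (Fr R p)) := by
  intro A
  induction A using WellFoundedGT.induction with
  | _ A ih =>
    by_cases hA : A = ⊤
    · have h1 : Function.Bijective A.subtype := by
        subst hA
        exact ⟨Subtype.val_injective, fun x => ⟨⟨x, trivial⟩, rfl⟩⟩
      have h2 := (LinearEquiv.lTensor (Fr R p) (LinearEquiv.ofBijective A.subtype h1)).injective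
      exact h2
    · obtain ⟨A', hA', hmin⟩ := WellFounded.has_min
        (wellFounded_lt : WellFounded ((· < ·) : Submodule R B → Submodule R B → Prop))
        {A' | A < A'} ⟨⊤, lt_top_iff_ne_top.2 hA⟩
      replace hA' : A < A' := hA'
      have hle : A ≤ A' := le_of_lt hA'
      obtain ⟨b, hbA', hbA⟩ := SetLike.exists_of_lt hA'
      have hgen : ∀ b' ∈ A', b' ∉ A → A ⊔ Submodule.span R {b'} = A' := by
        intro b' hb' hb'A
        have h1 : A ⊔ Submodule.span R {b'} ≤ A' :=
          sup_le hle ((Submodule.span_singleton_le_iff_mem _ _).2 hb')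
        have h2 : A < A ⊔ Submodule.span R {b'} := by
          refine lt_of_le_of_ne le_sup_left fun h => hb'A ?_
          rw [h]
          exact Submodule.mem_sup_right (Submodule.mem_span_singleton_self b')
        exact (eq_of_le_of_not_lt h1 (hmin _ h2))
      have hstep : Function.Injective ((A.comap A'.subtype).subtype.lTensor (Fr R p)) := by
        refine inj_step hinj (A.comap A'.subtype) ⟨b, hbA'⟩ hbA ?_ ?_
        · rw [eq_top_iff]
          rintro ⟨y, hy⟩ _
          have hy2 : y ∈ A ⊔ Submodule.span R {b} := by rw [hgen b hbA' hbA]; exact hy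
          obtain ⟨a, ha, z, hz, hyz⟩ := Submodule.mem_sup.1 hy2
          obtain ⟨r, rfl⟩ := Submodule.mem_span_singleton.1 hz
          refine Submodule.mem_sup.2 ⟨⟨a, hle ha⟩, ha, r • ⟨b, hbA'⟩,
            Submodule.smul_mem _ _ (Submodule.mem_span_singleton_self _), ?_⟩
          exact Subtype.ext hyz
        · intro r hr
          change r • b ∈ A
          by_contra hcon
          have h1 := hgen (r • b) (A'.smul_mem r hbA') hcon
          have h2 : b ∈ A ⊔ Submodule.span R {r • b} := by rw [h1]; exact hbA'
          obtain ⟨a, ha, z, hz, hyz⟩ := Submodule.mem_sup.1 h2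
          obtain ⟨s, rfl⟩ := Submodule.mem_span_singleton.1 hz
          have hu : IsUnit (1 - s * r) := by
            by_contra hnu
            have h3 : 1 - s * r ∈ maximalIdeal R := (mem_maximalIdeal _).2 hnu
            have h4 := (maximalIdeal R).add_mem h3 ((maximalIdeal R).mul_mem_left s hr)
            rw [sub_add_cancel] at h4
            exact (maximalIdeal.isMaximal R).ne_top ((Ideal.eq_top_iff_one _).2 h4)
          obtain ⟨v, hv⟩ := hu.exists_left_inv
          apply hbA
          have h5 : a = (1 - s * r) • b := by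
            rw [sub_smul, one_smul, mul_smul]
            exact eq_sub_of_add_eq hyz
          have h6 : b = v • a := by
            rw [h5, smul_smul, hv, one_smul]
          rw [h6]
          exact A.smul_mem _ ha
      have hcomp : A.subtype = (A'.subtype.comp (A.comap A'.subtype).subtype).comp
          (Submodule.comapSubtypeEquivOfLe hle).symm.toLinearMap := by
        ext x
        rfl
      rw [hcomp, LinearMap.lTensor_comp, LinearMap.lTensor_comp, LinearMap.coe_comp,
        LinearMap.coe_comp]
      refine Function.Injective.comp (Function.Injective.comp (ih A' hA') hstep) ?_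
      exact (LinearEquiv.lTensor (Fr R p) (Submodule.comapSubtypeEquivOfLe hle).symm).injective

/-- Elements of `F(K)` with `K ⊆ J N` map to `J F(N)`. -/
lemma mem_smul_top_of_le {N : ModuleCat.{u} R} {K : Submodule R N} {J : Ideal R}
    (hK : K ≤ J • ⊤) (η : (Fr R p) ⊗[R] K) :
    (show (Frob R p).obj N from (K.subtype.lTensor (Fr R p) η)) ∈
      (J • ⊤ : Submodule R ((Frob R p).obj N)) := by
  induction η using TensorProduct.induction_on with
  | zero => exact Submodule.zero_mem _
  | tmul s w =>
    have hw := hK w.2
    change tm p N (show R from s) w.1 ∈ _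
    refine Submodule.smul_induction_on (p := fun x => tm p N (show R from s) x ∈
      (J • ⊤ : Submodule R ((Frob R p).obj N))) hw ?_ ?_
    · intro r hr n _
      rw [tm_smul, ← smul_tm]
      exact Submodule.smul_mem_smul
        (Ideal.pow_mem_of_mem _ hr p (Fact.out : p.Prime).pos) Submodule.mem_top
    · intro x y hx hy
      have : tm p N (show R from s) (x + y) =
          tm p N (show R from s) x + tm p N (show R from s) y := TensorProduct.tmul_add _ _ _
      rw [this]
      exact Submodule.add_mem _ hx hy
  | add x y hx hy => rw [map_add]; exact Submodule.add_mem _ hx hy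

/-- `F(N)` is finitely generated if `N` is. -/
lemma finite_frob (N : ModuleCat.{u} R) [Module.Finite R N] :
    Module.Finite R ((Frob R p).obj N) := by
  obtain ⟨A, hA⟩ := (Module.finite_def.1 ‹Module.Finite R N› : (⊤ : Submodule R N).FG)
  classical
  refine Module.finite_def.2 ⟨A.image (fun a => tm p N 1 a), ?_⟩
  rw [eq_top_iff]
  rintro x -
  change (Fr R p) ⊗[R] N at x
  induction x using TensorProduct.induction_on with
  | zero => exact Submodule.zero_mem _
  | tmul s w =>
    have hw : w ∈ Submodule.span R (A : Set N) := hA ▸ Submodule.mem_top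
    change tm p N (show R from s) w ∈ _
    induction hw using Submodule.span_induction with
    | mem y hy =>
      have h1 : tm p N (show R from s) y = (show R from s) • tm p N 1 y := by
        rw [smul_tm, mul_one]
      rw [h1]
      refine Submodule.smul_mem _ _ (Submodule.subset_span ?_)
      rw [Finset.coe_image]
      exact ⟨y, hy, rfl⟩
    | zero =>
      have : tm p N (show R from s) 0 = 0 := TensorProduct.tmul_zero _ _
      rw [this]; exact Submodule.zero_mem _
    | add y z _ _ hy hz =>
      have : tm p N (show R from s) (y + z) =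
          tm p N (show R from s) y + tm p N (show R from s) z := TensorProduct.tmul_add _ _ _
      rw [this]
      exact Submodule.add_mem _ hy hz
    | smul r y _ hy =>
      rw [tm_smul, ← smul_tm]
      exact Submodule.smul_mem _ _ hy
  | add x y hx hy => exact Submodule.add_mem _ hx hy

lemma krull [IsLocalRing R] [IsNoetherianRing R] (N : ModuleCat.{u} R) [Module.Finite R N] :
    (⨅ i : ℕ, (maximalIdeal R) ^ i • ⊤ : Submodule R N) = ⊥ :=
  Ideal.iInf_pow_smul_eq_bot_of_isLocalRing _ (maximalIdeal.isMaximal R).ne_top

lemma eq_zero_of_krull [IsLocalRing R] [IsNoetherianRing R] (N : ModuleCat.{u} R)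
    [Module.Finite R N] (x : (Frob R p).obj N)
    (h : ∀ j : ℕ, x ∈ ((maximalIdeal R) ^ j • ⊤ : Submodule R ((Frob R p).obj N))) : x = 0 := by
  have hfin := finite_frob (p := p) N
  have h1 := krull ((Frob R p).obj N)
  have h2 : x ∈ (⨅ i : ℕ, (maximalIdeal R) ^ i • ⊤ : Submodule R ((Frob R p).obj N)) :=
    (Submodule.mem_iInf _).2 h
  rw [h1] at h2
  exact (Submodule.mem_bot R).1 h2

lemma artinian_quotient [IsLocalRing R] [IsNoetherianRing R] (n : ℕ) :
    IsArtinian R (R ⧸ ((maximalIdeal R) ^ (n + 1))) := by
  have hne : (maximalIdeal R) ^ (n + 1) ≠ ⊤ := by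
    intro h
    have h1 : (maximalIdeal R) ^ (n + 1) ≤ maximalIdeal R := Ideal.pow_le_self (Nat.succ_ne_zero n)
    rw [h, top_le_iff] at h1
    exact (maximalIdeal.isMaximal R).ne_top h1
  have : Nontrivial (R ⧸ ((maximalIdeal R) ^ (n + 1))) := Ideal.Quotient.nontrivial_iff.2 hne
  have hloc : IsLocalRing (R ⧸ ((maximalIdeal R) ^ (n + 1))) :=
    IsLocalRing.of_surjective' _ Ideal.Quotient.mk_surjective
  have hart : IsArtinianRing (R ⧸ ((maximalIdeal R) ^ (n + 1))) := by
    rw [isArtinianRing_iff_isNilpotent_maximalIdeal]
    refine ⟨n + 1, ?_⟩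
    have hle : maximalIdeal (R ⧸ ((maximalIdeal R) ^ (n + 1))) ≤
        (maximalIdeal R).map (Ideal.Quotient.mk _) := by
      intro z hz
      obtain ⟨z, rfl⟩ := Ideal.Quotient.mk_surjective z
      apply Ideal.mem_map_of_mem
      by_contra h
      have hu : IsUnit z := by simpa using h
      exact (mem_maximalIdeal _).1 hz (hu.map _)
    rw [Ideal.zero_eq_bot, eq_bot_iff]
    refine (Ideal.pow_right_mono hle (n + 1)).trans ?_
    rw [← Ideal.map_pow, Ideal.map_quotient_self]
  exact isArtinian_of_surjective_algebraMap
    (R := R ⧸ ((maximalIdeal R) ^ (n + 1))) (S := R) Ideal.Quotient.mk_surjective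

/-- The local criterion in the form needed here. -/
theorem flat_local [IsLocalRing R] [IsNoetherianRing R]
    (hinj : Function.Injective ((maximalIdeal R).subtype.lTensor (Fr R p))) :
    Module.Flat R (Fr R p) := by
  rw [Module.Flat.iff_lTensor_injective']
  intro I
  rw [injective_iff_map_eq_zero]
  intro ξ hξ
  refine eq_zero_of_krull (p := p) (ModuleCat.of R I) ξ fun j => ?_
  obtain ⟨k, hk⟩ := Ideal.exists_pow_inf_eq_pow_smul (maximalIdeal R) (M := R)
    (I : Submodule R R)
  set n := k + j with hn
  have hart := artinian_quotient (R := R) n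
  -- the quotient map and its restriction to `I`
  let π : R →ₗ[R] (R ⧸ ((maximalIdeal R) ^ (n + 1))) := Submodule.mkQ _
  let A : Submodule R (R ⧸ ((maximalIdeal R) ^ (n + 1))) := Submodule.map π I
  let g : I →ₗ[R] A := (π.comp I.subtype).codRestrict A (fun x => ⟨x.1, x.2, rfl⟩)
  have hg : Function.Surjective g := by
    rintro ⟨_, ⟨x, hx, rfl⟩⟩
    exact ⟨⟨x, hx⟩, rfl⟩
  have hcomm : A.subtype.comp g = π.comp I.subtype := rfl
  have h1 : g.lTensor (Fr R p) ξ = 0 := by
    apply inj_fl hinj A
    rw [map_zero, ← LinearMap.comp_apply, ← LinearMap.lTensor_comp, hcomm,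
      LinearMap.lTensor_comp, LinearMap.comp_apply, hξ, map_zero]
  have hex : Function.Exact (LinearMap.ker g).subtype g := by
    intro y
    constructor
    · intro hy
      exact ⟨⟨y, hy⟩, rfl⟩
    · rintro ⟨y', rfl⟩
      exact y'.2
  obtain ⟨η, hη⟩ := (lTensor_exact (Fr R p) hex hg ξ).1 h1
  rw [← hη]
  refine mem_smul_top_of_le (N := ModuleCat.of R I) (K := LinearMap.ker g) ?_ η
  -- Artin–Rees
  intro w hw
  have hw1 : (w : R) ∈ (maximalIdeal R) ^ (n + 1) := by
    have h2 : π w = 0 := congrArg Subtype.val hw
    exact (Submodule.Quotient.mk_eq_zero _).1 h2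
  have hw2 : (w : R) ∈ ((maximalIdeal R) ^ (n + 1) • ⊤ ⊓ I : Submodule R R) := by
    refine ⟨?_, w.2⟩
    rw [smul_eq_mul, Ideal.mul_top]
    exact hw1
  rw [hk (n + 1) (by omega)] at hw2
  have hw3 : (w : R) ∈ ((maximalIdeal R) ^ (n + 1 - k) • I : Submodule R R) :=
    Submodule.smul_mono le_rfl inf_le_right hw2
  have hw4 : (w : R) ∈ Submodule.map (Submodule.subtype I)
      ((maximalIdeal R) ^ (n + 1 - k) • (⊤ : Submodule R I)) := by
    rw [Submodule.map_smul'', Submodule.map_top, Submodule.range_subtype]
    exact hw3
  obtain ⟨w', hw', hww⟩ := hw4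
  have hw5 : w' = w := Subtype.ext hww
  rw [hw5] at hw'
  exact Submodule.smul_mono_left (Ideal.pow_le_pow_right (by omega)) hw'

/-- The Frobenius endomorphism of a regular local ring is flat. -/
theorem flat_of_regular_local [IsRegularLocalRing R] : Module.Flat R (Fr R p) := by
  have h1 := (isRegularLocalRing_iff R).1 ‹_›
  have hfg : (maximalIdeal R).FG := IsNoetherian.noetherian _
  -- a minimal family of generators
  obtain ⟨x, hx⟩ : ∃ x : Fin (maximalIdeal R).spanFinrank → R,
      Ideal.span (Set.range x) = maximalIdeal R := by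
    have h2 := Submodule.FG.generators_ncard (p := maximalIdeal R) hfg
    have h3 := Submodule.FG.finite_generators (p := maximalIdeal R) hfg
    have h4 := (maximalIdeal R).span_generators
    let e := h3.toFinset.equivFin
    have hc : h3.toFinset.card = (maximalIdeal R).spanFinrank := by
      rw [← h2, Set.ncard_eq_toFinset_card _ h3]
    rw [← hc]
    refine ⟨fun i => (e.symm i : R), ?_⟩
    have h5 : Set.range (fun i => (e.symm i : R)) = (maximalIdeal R).generators := by
      ext z
      constructor
      · rintro ⟨i, rfl⟩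
        exact h3.mem_toFinset.1 (e.symm i).2
      · intro hz
        exact ⟨e ⟨z, h3.mem_toFinset.2 hz⟩, by simp⟩
    rw [h5]
    exact h4
  have hw := seq _ R x hx h1.le
  have hm : ∀ r ∈ List.ofFn x, r ∈ maximalIdeal R := by
    intro r hr
    obtain ⟨i, rfl⟩ := (List.mem_ofFn' _ _).1 hr
    rw [← hx]
    exact Ideal.subset_span ⟨i, rfl⟩
  have hw2 := pow_seq p (Fact.out : p.Prime).ne_zero hm hw
  rw [List.map_ofFn] at hw2
  exact flat_local (inj_max hx hw2)

end

end Pool.Agent.FMod
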