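import Pool.Agent.FMod.Ops

/-!
Cocycles and coboundaries of given degree and with values in a given submodule, and the
three exactness statements for changing the exponent of one element.
-/

set_option autoImplicit false

namespace Pool.Agent.FMod

variable {c : ℕ} {R N : Type*} [CommRing R] [AddCommGroup N] [Module R N]

/-- Functions on subsets with values in `N'`, supported on the subsets of size `i`. -/
def Tin (c : ℕ) (N' : Submodule R N) (i : ℤ) : Submodule R (Finset (Fin c) → N) where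
  carrier := {ω | ∀ S, ω S ∈ N' ∧ ((S.card : ℤ) ≠ i → ω S = 0)}
  add_mem' := by
    intro x y hx hy S
    refine ⟨N'.add_mem (hx S).1 (hy S).1, fun h => ?_⟩
    rw [Pi.add_apply, (hx S).2 h, (hy S).2 h, add_zero]
  zero_mem' := fun S => ⟨N'.zero_mem, fun _ => rfl⟩
  smul_mem' := by
    intro r x hx S
    refine ⟨N'.smul_mem r (hx S).1, fun h => ?_⟩
    rw [Pi.smul_apply, (hx S).2 h, smul_zero]

lemma mem_Tin {N' : Submodule R N} {i : ℤ} {ω : Finset (Fin c) → N} :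
    ω ∈ Tin c N' i ↔ ∀ S, ω S ∈ N' ∧ ((S.card : ℤ) ≠ i → ω S = 0) := Iff.rfl

lemma Tin_mono {N' N'' : Submodule R N} (h : N' ≤ N'') (i : ℤ) : Tin c N' i ≤ Tin c N'' i :=
  fun _ hω S => ⟨h (hω S).1, (hω S).2⟩

lemma zsmul_mem' {N' : Submodule R N} {x : N} (hx : x ∈ N') (k : ℤ) : k • x ∈ N' :=
  N'.toAddSubgroup.zsmul_mem hx k

lemma eOp_mem {N' : Submodule R N} {i i' : ℤ} (hi : i' = i + 1) {ω : Finset (Fin c) → N}
    (hω : ω ∈ Tin c N' i) (j : Fin c) : eOp R j ω ∈ Tin c N' i' := by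
  intro S
  rw [eOp_apply]
  split_ifs with h
  · refine ⟨zsmul_mem' (hω _).1 _, fun hS => ?_⟩
    rw [(hω (S.erase j)).2, smul_zero]
    intro h'
    apply hS
    have := Finset.card_erase_add_one h
    omega
  · exact ⟨N'.zero_mem, fun _ => rfl⟩

lemma iOp_mem {N' : Submodule R N} {i i' : ℤ} (hi : i' = i - 1) {ω : Finset (Fin c) → N}
    (hω : ω ∈ Tin c N' i) (j : Fin c) : iOp R j ω ∈ Tin c N' i' := by
  intro S
  rw [iOp_apply]
  split_ifs with h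
  · exact ⟨N'.zero_mem, fun _ => rfl⟩
  · refine ⟨zsmul_mem' (hω _).1 _, fun hS => ?_⟩
    rw [(hω (insert j S)).2, smul_zero]
    intro h'
    apply hS
    have := Finset.card_insert_of_notMem h
    omega

lemma al_mem {N' : Submodule R N} {i : ℤ} {ω : Finset (Fin c) → N} (hω : ω ∈ Tin c N' i)
    (f : Fin c → R) (s : Fin c → ℕ) : al f s ω ∈ Tin c N' i := by
  intro S
  rw [al_apply]
  exact ⟨N'.smul_mem _ (hω S).1, fun h => by rw [(hω S).2 h, smul_zero]⟩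

lemma be_mem {N' : Submodule R N} {i : ℤ} {ω : Finset (Fin c) → N} (hω : ω ∈ Tin c N' i)
    (f : Fin c → R) (s : Fin c → ℕ) : be f s ω ∈ Tin c N' i := by
  intro S
  rw [be_apply]
  exact ⟨N'.smul_mem _ (hω S).1, fun h => by rw [(hω S).2 h, smul_zero]⟩

lemma dOp_mem {N' : Submodule R N} {i i' : ℤ} (hi : i' = i + 1) {ω : Finset (Fin c) → N}
    (hω : ω ∈ Tin c N' i) (f : Fin c → R) (n : Fin c → ℕ) : dOp f n ω ∈ Tin c N' i' := by
  rw [dOp_apply]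
  exact Submodule.sum_mem _ fun j _ => Submodule.smul_mem _ _ (eOp_mem hi hω j)

/-- Cocycles of degree `i` with values in `N'` for the exponents `n`. -/
def Z (f : Fin c → R) (n : Fin c → ℕ) (N' : Submodule R N) (i : ℤ) :
    Submodule R (Finset (Fin c) → N) :=
  Tin c N' i ⊓ LinearMap.ker (dOp f n)

/-- Coboundaries of degree `i` with values in `N'` for the exponents `n`. -/
def B (f : Fin c → R) (n : Fin c → ℕ) (N' : Submodule R N) (i : ℤ) :
    Submodule R (Finset (Fin c) → N) :=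
  (Tin c N' (i - 1)).map (dOp f n)

lemma mem_Z {f : Fin c → R} {n : Fin c → ℕ} {N' : Submodule R N} {i : ℤ}
    {ω : Finset (Fin c) → N} : ω ∈ Z f n N' i ↔ ω ∈ Tin c N' i ∧ dOp f n ω = 0 := Iff.rfl

lemma mem_B {f : Fin c → R} {n : Fin c → ℕ} {N' : Submodule R N} {i : ℤ}
    {ω : Finset (Fin c) → N} : ω ∈ B f n N' i ↔ ∃ v ∈ Tin c N' (i - 1), dOp f n v = ω := Iff.rfl

section maps

variable {f : Fin c → R} {n : Fin c → ℕ} {N' N'' : Submodule R N} {i : ℤ}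
  {ω : Finset (Fin c) → N}

lemma Z_mono (h : N' ≤ N'') : Z f n N' i ≤ Z f n N'' i :=
  fun _ hω => ⟨Tin_mono h i hω.1, hω.2⟩

lemma B_mono (h : N' ≤ N'') : B f n N' i ≤ B f n N'' i :=
  Submodule.map_mono (Tin_mono h _)

lemma B_le_Z : B f n N' i ≤ Z f n N' i := by
  rintro _ ⟨v, hv, rfl⟩
  exact ⟨dOp_mem (by ring) hv f n, dOp_dOp f n v⟩

lemma al_Z (hω : ω ∈ Z f n N' i) {s m : Fin c → ℕ} (hm : m = n + s) :
    al f s ω ∈ Z f m N' i := by
  subst hm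
  exact mem_Z.2 ⟨al_mem hω.1 f s, by rw [dOp_al, (mem_Z.1 hω).2, map_zero]⟩

lemma al_B (hω : ω ∈ B f n N' i) {s m : Fin c → ℕ} (hm : m = n + s) :
    al f s ω ∈ B f m N' i := by
  subst hm
  obtain ⟨v, hv, rfl⟩ := hω
  exact ⟨al f s v, al_mem hv f s, dOp_al f n s v⟩

lemma be_Z (hω : ω ∈ Z f n N' i) {s m : Fin c → ℕ} (hm : n = m + s) :
    be f s ω ∈ Z f m N' i := by
  subst hm
  exact mem_Z.2 ⟨be_mem hω.1 f s, by rw [dOp_be, (mem_Z.1 hω).2, map_zero]⟩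

lemma be_B (hω : ω ∈ B f n N' i) {s m : Fin c → ℕ} (hm : n = m + s) :
    be f s ω ∈ B f m N' i := by
  subst hm
  obtain ⟨v, hv, rfl⟩ := hω
  exact ⟨be f s v, be_mem hv f s, dOp_be f m s v⟩

lemma eOp_Z {j : Fin c} {m : Fin c → ℕ} {i' : ℤ} (hω : ω ∈ Z f n N' i) (hi : i' = i + 1)
    (h : ∀ l, l ≠ j → m l = n l) : eOp R j ω ∈ Z f m N' i' := by
  refine mem_Z.2 ⟨eOp_mem hi hω.1 j, ?_⟩
  rw [dOp_eOp f h, (mem_Z.1 hω).2, map_zero, neg_zero]

lemma eOp_B {j : Fin c} {m : Fin c → ℕ} {i' : ℤ} (hω : ω ∈ B f n N' i) (hi : i' = i + 1)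
    (h : ∀ l, l ≠ j → m l = n l) : eOp R j ω ∈ B f m N' i' := by
  obtain ⟨v, hv, rfl⟩ := hω
  refine ⟨- eOp R j v, Submodule.neg_mem _ (eOp_mem (by rw [hi]; ring) hv j), ?_⟩
  rw [map_neg, dOp_eOp f h, neg_neg]

end maps

section exact

variable {f : Fin c → R} {na nb nab : Fin c → ℕ} {j : Fin c} {N' : Submodule R N} {i : ℤ}

theorem exact1 (hb : ∀ l, l ≠ j → nb l = na l) (hab : ∀ l, l ≠ j → nab l = na l)
    (hj : nab j = na j + nb j) {ω : Finset (Fin c) → N} (hω : ω ∈ Z f na N' i)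
    (h : al f (Pi.single j (nb j)) ω ∈ B f nab N' i) :
    ∃ ζ ∈ Z f nb N' (i - 1), ω - eOp R j ζ ∈ B f na N' i := by
  obtain ⟨v, hv, hv'⟩ := mem_B.1 h
  have hω1 := (mem_Z.1 hω).1
  have hω2 := (mem_Z.1 hω).2
  rw [dOp_eq f na j] at hω2
  rw [al_single, dOp_eq f nab j, dOff_congr f hab, hj, pow_add] at hv'
  obtain ⟨h1, h2⟩ := (car (N := N) f na j).core1 _ _ ω v hω2 hv'.symm
  have hIEv : iOp R j (eOp R j v) ∈ Tin c N' (i - 1) :=
    iOp_mem (i := i) (by ring) (eOp_mem (by ring) hv j) j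
  refine ⟨iOp R j ω - f j ^ na j • iOp R j (eOp R j v) - eOp R j (iOp R j v), mem_Z.2 ⟨?_, ?_⟩, ?_⟩
  · refine Submodule.sub_mem _ (Submodule.sub_mem _ (iOp_mem rfl hω1 j)
      (Submodule.smul_mem _ _ hIEv)) ?_
    exact eOp_mem (i := i - 1 - 1) (by ring) (iOp_mem rfl hv j) j
  · rw [dOp_eq f nb j, dOff_congr f hb]
    exact h1
  · refine ⟨iOp R j (eOp R j v), hIEv, ?_⟩
    rw [dOp_eq f na j]
    exact h2.symm

theorem exact2 (hb : ∀ l, l ≠ j → nb l = na l) (hab : ∀ l, l ≠ j → nab l = na l)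
    (hj : nab j = na j + nb j) {ζ : Finset (Fin c) → N} {i' : ℤ} (hi : i' = i + 1)
    (hζ : ζ ∈ Z f nb N' i)
    (h : eOp R j ζ ∈ B f na N' i') :
    ∃ w ∈ Z f nab N' i, ζ - be f (Pi.single j (na j)) w ∈ B f nb N' i := by
  subst hi
  obtain ⟨v, hv, hv'⟩ := mem_B.1 h
  have hζ1 := (mem_Z.1 hζ).1
  have hζ2 := (mem_Z.1 hζ).2
  rw [dOp_eq f nb j, dOff_congr f hb] at hζ2
  rw [dOp_eq f na j] at hv'
  rw [add_sub_cancel_right] at hv
  obtain ⟨h1, h2⟩ := (car (N := N) f na j).core2 _ _ ζ v hζ2 hv'.symm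
  refine ⟨iOp R j (eOp R j v) + eOp R j (iOp R j ζ + f j ^ nb j • iOp R j v), mem_Z.2 ⟨?_, ?_⟩,
    ?_⟩
  · refine Submodule.add_mem _ (iOp_mem (i := i + 1) (by ring) (eOp_mem (by ring) hv j) j) ?_
    refine eOp_mem (i := i - 1) (by ring) ?_ j
    exact Submodule.add_mem _ (iOp_mem rfl hζ1 j) (Submodule.smul_mem _ _ (iOp_mem rfl hv j))
  · rw [dOp_eq f nab j, dOff_congr f hab, hj, pow_add]
    exact h1
  · refine ⟨- iOp R j v, Submodule.neg_mem _ (iOp_mem (by ring) hv j), ?_⟩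
    rw [dOp_eq f nb j, dOff_congr f hb, be_single]
    exact h2.symm

theorem exact3 (hb : ∀ l, l ≠ j → nb l = na l) (hab : ∀ l, l ≠ j → nab l = na l)
    (hj : nab j = na j + nb j) {ω : Finset (Fin c) → N} (hω : ω ∈ Z f nab N' i)
    (h : be f (Pi.single j (na j)) ω ∈ B f nb N' i) :
    ∃ w ∈ Z f na N' i, ω - al f (Pi.single j (nb j)) w ∈ B f nab N' i := by
  obtain ⟨v, hv, hv'⟩ := mem_B.1 h
  have hω1 := (mem_Z.1 hω).1
  have hω2 := (mem_Z.1 hω).2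
  rw [dOp_eq f nab j, dOff_congr f hab, hj, pow_add] at hω2
  rw [be_single, dOp_eq f nb j, dOff_congr f hb] at hv'
  obtain ⟨h1, h2⟩ := (car (N := N) f na j).core3 _ _ ω v hω2 hv'.symm
  refine ⟨iOp R j (eOp R j ω) + eOp R j v, mem_Z.2 ⟨?_, ?_⟩, ?_⟩
  · exact Submodule.add_mem _ (iOp_mem (i := i + 1) (by ring) (eOp_mem (by ring) hω1 j) j)
      (eOp_mem (by ring) hv j)
  · rw [dOp_eq f na j]
    exact h1
  · refine ⟨eOp R j (iOp R j v), eOp_mem (i := i - 1 - 1) (by ring) (iOp_mem rfl hv j) j, ?_⟩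
    rw [dOp_eq f nab j, dOff_congr f hab, hj, pow_add, al_single]
    exact h2.symm

end exact

end Pool.Agent.FMod
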