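import Pool.Agent.FMod.Graded

/-!
The main induction: if the degree `i` cohomology vanishes at a prime, it vanishes on a basic
open neighbourhood.
-/

set_option autoImplicit false

namespace Pool.Agent.FMod

variable {c : ℕ} {R M : Type*} [CommRing R] [AddCommGroup M] [Module R M]

/-- Componentwise application of an additive map. -/
def vT (c : ℕ) (v : M →+ M) : (Finset (Fin c) → M) →+ (Finset (Fin c) → M) :=
  v.compLeft (Finset (Fin c))

lemma vT_apply (v : M →+ M) (ω : Finset (Fin c) → M) (S : Finset (Fin c)) :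
    vT c v ω S = v (ω S) := rfl

section semilinear

variable {v : M →+ M} {q : ℕ} (hv : ∀ (r : R) (m : M), v (r • m) = r ^ q • v m)

include hv in
lemma vT_smul (r : R) (ω : Finset (Fin c) → M) : vT c v (r • ω) = r ^ q • vT c v ω := by
  funext S
  simp [vT_apply, hv]

lemma vT_eOp (j : Fin c) (ω : Finset (Fin c) → M) :
    vT c v (eOp R j ω) = eOp R j (vT c v ω) := by
  funext S
  rw [vT_apply, eOp_apply, eOp_apply]
  split_ifs
  · rw [map_zsmul, vT_apply]
  · simp

include hv in
lemma vT_dOp (f : Fin c → R) (n : Fin c → ℕ) (ω : Finset (Fin c) → M) :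
    vT c v (dOp f n ω) = dOp f (q • n) (vT c v ω) := by
  rw [dOp_apply, dOp_apply, map_sum]
  refine Finset.sum_congr rfl fun j _ => ?_
  rw [vT_smul hv, vT_eOp, ← pow_mul, mul_comm, Pi.smul_apply, smul_eq_mul]

include hv in
lemma vT_al (f : Fin c → R) (s : Fin c → ℕ) (ω : Finset (Fin c) → M) :
    vT c v (al f s ω) = al f (q • s) (vT c v ω) := by
  funext S
  rw [vT_apply, al_apply, al_apply, hv, vT_apply, ← Finset.prod_pow]
  congr 1
  refine Finset.prod_congr rfl fun j _ => ?_
  rw [← pow_mul, mul_comm, Pi.smul_apply, smul_eq_mul]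

include hv in
lemma vT_span {A : Set (Finset (Fin c) → M)} {x : Finset (Fin c) → M}
    (hx : x ∈ Submodule.span R A) : vT c v x ∈ Submodule.span R (vT c v '' A) := by
  induction hx using Submodule.span_induction with
  | mem y hy => exact Submodule.subset_span ⟨y, hy, rfl⟩
  | zero => rw [map_zero]; exact Submodule.zero_mem _
  | add y z _ _ hy hz => rw [map_add]; exact Submodule.add_mem _ hy hz
  | smul r y _ hy => rw [vT_smul hv]; exact Submodule.smul_mem _ _ hy

end semilinear

/-- A module with a `p`-linear endomorphism and an exhausting chain of finitely generated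
submodules, each one generated by the image of the preceding one, such that the kernels of the
Koszul differentials are compatible with the `p`-linear endomorphism. -/
structure Data (R M : Type*) [CommRing R] [AddCommGroup M] [Module R M] (p : ℕ) where
  u : M →+ M
  u_smul : ∀ (r : R) (m : M), u (r • m) = r ^ p • u m
  Mf : ℕ → Submodule R M
  fg : (Mf 0).FG
  le_one : Mf 0 ≤ Mf 1
  succ : ∀ e, Mf (e + 1) = Submodule.span R (u '' (Mf e : Set M))
  union : ∀ m : M, ∃ e, m ∈ Mf e
  flat : ∀ (c : ℕ) (W : Submodule R (Finset (Fin c) → M)) (f : Fin c → R) (n : Fin c → ℕ)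
    (ω : Finset (Fin c) → M), ω ∈ Submodule.span R (vT c u '' (W : Set (Finset (Fin c) → M))) →
    dOp f (p • n) ω = 0 →
    ω ∈ Submodule.span R (vT c u '' ((W ⊓ LinearMap.ker (dOp f n) :
      Submodule R (Finset (Fin c) → M)) : Set (Finset (Fin c) → M)))

namespace Data

variable {p : ℕ} (D : Data R M p)

lemma mono : Monotone D.Mf := by
  apply monotone_nat_of_le_succ
  intro e
  induction e with
  | zero => exact D.le_one
  | succ e ih =>
    rw [D.succ e, D.succ (e + 1)]
    exact Submodule.span_mono (Set.image_mono ih)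

lemma fg_all (e : ℕ) : (D.Mf e).FG := by
  induction e with
  | zero => exact D.fg
  | succ e ih =>
    obtain ⟨A, hA⟩ := ih
    classical
    refine ⟨A.image D.u, ?_⟩
    rw [D.succ e, ← hA, Finset.coe_image]
    apply le_antisymm
    · exact Submodule.span_mono (Set.image_mono Submodule.subset_span)
    · rw [Submodule.span_le]
      rintro _ ⟨x, hx, rfl⟩
      induction hx using Submodule.span_induction with
      | mem y hy => exact Submodule.subset_span ⟨y, hy, rfl⟩
      | zero => rw [map_zero]; exact Submodule.zero_mem _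
      | add y z _ _ hy hz => rw [map_add]; exact Submodule.add_mem _ hy hz
      | smul r y _ hy =>
        rw [D.u_smul]; exact Submodule.smul_mem _ _ hy

lemma u_mem {e : ℕ} {m : M} (hm : m ∈ D.Mf e) : D.u m ∈ D.Mf (e + 1) := by
  rw [D.succ]; exact Submodule.subset_span ⟨m, hm, rfl⟩

/-- Iterates of the `p`-linear endomorphism. -/
def uP (D : Data R M p) : ℕ → (M →+ M)
  | 0 => AddMonoidHom.id M
  | e + 1 => D.u.comp (uP D e)

lemma uP_smul (e : ℕ) (r : R) (m : M) : D.uP e (r • m) = r ^ p ^ e • D.uP e m := by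
  induction e with
  | zero => simp [uP]
  | succ e ih =>
    change D.u (D.uP e (r • m)) = _
    rw [ih, D.u_smul, ← pow_mul, pow_succ]; rfl

lemma uP_mem (e : ℕ) {e0 : ℕ} {m : M} (hm : m ∈ D.Mf e0) : D.uP e m ∈ D.Mf (e0 + e) := by
  induction e with
  | zero => exact hm
  | succ e ih => exact D.u_mem ih

lemma vT_uP_succ (e : ℕ) (ω : Finset (Fin c) → M) :
    vT c (D.uP (e + 1)) ω = vT c D.u (vT c (D.uP e) ω) := rfl

lemma vT_Tin {v : M →+ M} {N N' : Submodule R M} (h : ∀ m ∈ N, v m ∈ N') {i : ℤ}
    {ω : Finset (Fin c) → M} (hω : ω ∈ Tin c N i) : vT c v ω ∈ Tin c N' i := by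
  intro S
  rw [vT_apply]
  exact ⟨h _ (hω S).1, fun hS => by rw [(hω S).2 hS, map_zero]⟩

lemma vT_B (f : Fin c → R) (n : Fin c → ℕ) (e0 e : ℕ) {i : ℤ} {ω : Finset (Fin c) → M}
    (hω : ω ∈ B f n (D.Mf e0) i) :
    vT c (D.uP e) ω ∈ B f (p ^ e • n) (D.Mf (e0 + e)) i := by
  obtain ⟨v, hv, rfl⟩ := hω
  refine ⟨vT c (D.uP e) v, vT_Tin (fun m hm => D.uP_mem e hm) hv, ?_⟩
  rw [vT_dOp (D.uP_smul e)]

lemma Tin_span (e : ℕ) (i : ℤ) :
    Tin c (D.Mf (e + 1)) i ≤ Submodule.span R (vT c D.u '' (Tin c (D.Mf e) i : Set _)) := by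
  classical
  intro ω hω
  have h1 : ω = ∑ S, Pi.single S (ω S) := by
    funext S'
    simp [Finset.sum_apply, Pi.single_apply]
  rw [h1]
  refine Submodule.sum_mem _ fun S _ => ?_
  by_cases hS : (S.card : ℤ) = i
  · have h2 := (hω S).1
    rw [D.succ e] at h2
    generalize ω S = y0 at h2
    induction h2 using Submodule.span_induction with
    | mem y hy =>
      obtain ⟨m, hm, rfl⟩ := hy
      refine Submodule.subset_span ⟨Pi.single S m, ?_, ?_⟩
      · intro S'
        by_cases hSS : S' = S
        · subst hSS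
          rw [Pi.single_eq_same]
          exact ⟨hm, fun h => absurd hS h⟩
        · rw [Pi.single_eq_of_ne hSS]
          exact ⟨Submodule.zero_mem _, fun _ => rfl⟩
      · funext S'
        rw [vT_apply]
        by_cases hSS : S' = S
        · subst hSS; simp
        · simp [hSS]
    | zero => rw [Pi.single_zero]; exact Submodule.zero_mem _
    | add y z _ _ hy hz => rw [Pi.single_add]; exact Submodule.add_mem _ hy hz
    | smul r y _ hy => rw [Pi.single_smul]; exact Submodule.smul_mem _ _ hy
  · rw [(hω S).2 hS, Pi.single_zero]; exact Submodule.zero_mem _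

lemma Z_span (f : Fin c → R) (n : Fin c → ℕ) (e0 e : ℕ) (i : ℤ) :
    Z f (p ^ e • n) (D.Mf (e0 + e)) i ≤
      Submodule.span R (vT c (D.uP e) '' (Z f n (D.Mf e0) i : Set _)) := by
  induction e with
  | zero =>
    intro ω hω
    rw [pow_zero, one_smul] at hω
    exact Submodule.subset_span ⟨ω, hω, rfl⟩
  | succ e ih =>
    intro ω hω
    have h1 := D.flat c (Tin c (D.Mf (e0 + e)) i) f (p ^ e • n) ω
      (D.Tin_span (e0 + e) i (mem_Z.1 hω).1) (by
        have := (mem_Z.1 hω).2
        rwa [pow_succ', mul_smul] at this)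
    have h2 : (Tin c (D.Mf (e0 + e)) i ⊓ LinearMap.ker (dOp f (p ^ e • n))) =
      Z f (p ^ e • n) (D.Mf (e0 + e)) i := rfl
    rw [h2] at h1
    refine (Submodule.span_le.2 ?_) h1
    rintro _ ⟨x, hx, rfl⟩
    have h3 := vT_span D.u_smul (ih hx)
    rw [Set.image_image] at h3
    exact h3

lemma Z_fg [IsNoetherianRing R] (f : Fin c → R) (n : Fin c → ℕ) (e : ℕ) (i : ℤ) :
    (Z f n (D.Mf e) i).FG := by
  have h1 : (Submodule.pi Set.univ (fun _ : Finset (Fin c) => D.Mf e)).FG :=
    Submodule.fg_pi fun _ => D.fg_all e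
  have h2 := isNoetherian_of_fg_of_noetherian _ h1
  have h3 : Z f n (D.Mf e) i ≤ Submodule.pi Set.univ (fun _ : Finset (Fin c) => D.Mf e) :=
    fun ω hω S _ => ((mem_Z.1 hω).1 S).1
  have h4 := isNoetherian_of_le h3
  exact (Module.Finite.iff_fg).1 inferInstance

end Data

end Pool.Agent.FMod
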