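import Pool.Agent.FMod.Regular
import Pool.Agent.FMod.FFinite

/-!
The Frobenius endomorphism of a regular ring of prime characteristic is flat (Kunz).
-/

set_option autoImplicit false

open IsLocalRing RingTheory.Sequence
open scoped TensorProduct

namespace Pool.Agent.FMod

universe u

section

variable {R : Type u} [CommRing R] [IsLocalRing R] [IsNoetherianRing R]

lemma pow_seq_aux (n : ℕ) (hn : n ≠ 0) : ∀ l₁ l₂ : List R, (∀ r ∈ l₁ ++ l₂, r ∈ maximalIdeal R) →
    IsWeaklyRegular R (l₁ ++ l₂) → IsWeaklyRegular R (l₁.map (· ^ n) ++ l₂) := by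
  intro l₁
  induction l₁ with
  | nil => intro l₂ _ h; exact h
  | cons a l₁ ih =>
    intro l₂ hm h
    have h1 : IsWeaklyRegular R (l₁ ++ a :: l₂) := by
      refine isWeaklyRegular_of_perm_of_subset_maximalIdeal h ?_ hm
      exact List.perm_middle.symm
    have h2 := ih (a :: l₂) (fun r hr => hm r ((List.perm_middle (a := a)
      (l₁ := l₁) (l₂ := l₂)).mem_iff.1 hr)) h1
    have hm2 : ∀ r ∈ l₁.map (· ^ n) ++ a :: l₂, r ∈ maximalIdeal R := by
      intro r hr
      rcases List.mem_append.1 hr with hr | hr
      · obtain ⟨b, hb, rfl⟩ := List.mem_map.1 hr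
        exact Ideal.pow_mem_of_mem _ (hm b (by simp [hb])) n (Nat.pos_of_ne_zero hn)
      · exact hm r (by
          rcases List.mem_cons.1 hr with rfl | hr
          · simp
          · simp [hr])
    have h3 : IsWeaklyRegular R ((l₁.map (· ^ n) ++ l₂) ++ [a]) := by
      refine isWeaklyRegular_of_perm_of_subset_maximalIdeal h2 ?_ hm2
      refine List.perm_middle.trans ?_
      exact (List.perm_append_singleton _ _).symm
    rw [isWeaklyRegular_append_iff, isWeaklyRegular_singleton_iff] at h3
    have h4 : IsWeaklyRegular R ((l₁.map (· ^ n) ++ l₂) ++ [a ^ n]) := by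
      rw [isWeaklyRegular_append_iff, isWeaklyRegular_singleton_iff]
      exact ⟨h3.1, h3.2.pow n⟩
    refine isWeaklyRegular_of_perm_of_subset_maximalIdeal h4 ?_ ?_
    · rw [List.map_cons, List.cons_append]
      exact List.perm_append_singleton _ _
    · intro r hr
      rcases List.mem_append.1 hr with hr | hr
      · exact hm2 r (by
          rcases List.mem_append.1 hr with hr | hr
          · exact List.mem_append_left _ hr
          · exact List.mem_append_right _ (List.mem_cons_of_mem _ hr))
      · rw [List.mem_singleton.1 hr]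
        exact Ideal.pow_mem_of_mem _ (hm a (by simp)) n (Nat.pos_of_ne_zero hn)

lemma pow_seq (n : ℕ) (hn : n ≠ 0) {l : List R} (hm : ∀ r ∈ l, r ∈ maximalIdeal R)
    (h : IsWeaklyRegular R l) : IsWeaklyRegular R (l.map (· ^ n)) := by
  have := pow_seq_aux n hn l [] (by simpa using hm) (by simpa using h)
  simpa using this

end

section

variable {R : Type u} [CommRing R] {p : ℕ} [Fact p.Prime] [CharP R p]

/-- The element `s` of `R`, regarded as an element of `R` with the Frobenius structure. -/
def fr (p : ℕ) [Fact p.Prime] [CharP R p] (s : R) : Fr R p := s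

lemma fr_add (s t : R) : fr p (s + t) = fr p s + fr p t := rfl

lemma fr_smul (r s : R) : r • fr p s = fr p (r ^ p * s) := rfl

lemma fr_tmul {N : Type*} [AddCommGroup N] [Module R N] (r s : R) (w : N) :
    (fr p (r ^ p * s)) ⊗ₜ[R] w = (fr p s) ⊗ₜ[R] (r • w) := by
  rw [← fr_smul, TensorProduct.smul_tmul]

/-- Relations between `p`-th powers of a regular sequence are trivial. -/
lemma rel (J : Ideal R) : ∀ (d : ℕ) (x : Fin d → R) (hx : ∀ i, x i ∈ J),
    IsWeaklyRegular R (List.ofFn fun i => x i ^ p) → ∀ s : Fin d → R,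
    ∑ i, s i * x i ^ p = 0 → ∑ i, (fr p (s i)) ⊗ₜ[R] (⟨x i, hx i⟩ : J) = 0 := by
  intro d
  induction d with
  | zero => intro x hx _ s _; simp
  | succ d ih =>
    intro x hx hw s hs
    rw [List.ofFn_succ', List.concat_eq_append, isWeaklyRegular_append_iff,
      isWeaklyRegular_singleton_iff] at hw
    obtain ⟨hw1, hw2⟩ := hw
    have hI : (Ideal.ofList (List.ofFn fun i : Fin d => x i.castSucc ^ p) • ⊤ : Submodule R R) =
        Ideal.span (Set.range fun i : Fin d => x i.castSucc ^ p) := by
      rw [smul_eq_mul, Ideal.mul_top, Ideal.ofList]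
      congr 1
      ext z
      simp [List.mem_ofFn, eq_comm]
    rw [Fin.sum_univ_castSucc] at hs
    have h1 : s (Fin.last d) ∈
        (Ideal.ofList (List.ofFn fun i : Fin d => x i.castSucc ^ p) • ⊤ : Submodule R R) := by
      apply mem_of_isSMulRegular_quotient_of_smul_mem hw2
      rw [hI, smul_eq_mul, mul_comm, eq_neg_of_add_eq_zero_right hs]
      refine Submodule.neg_mem _ (Submodule.sum_mem _ fun i _ => ?_)
      exact Ideal.mul_mem_left _ _ (Ideal.subset_span ⟨i, rfl⟩)
    rw [hI] at h1
    obtain ⟨a, ha⟩ := (Submodule.mem_span_range_iff_exists_fun R).1 h1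
    simp only [smul_eq_mul] at ha
    have h2 := ih (fun i => x i.castSucc) (fun i => hx _) hw1
      (fun i => s i.castSucc + x (Fin.last d) ^ p * a i) (by
        have h3 : ∑ i : Fin d, (s i.castSucc + x (Fin.last d) ^ p * a i) * x i.castSucc ^ p =
            ∑ i : Fin d, s i.castSucc * x i.castSucc ^ p +
              (∑ i : Fin d, a i * x i.castSucc ^ p) * x (Fin.last d) ^ p := by
          rw [Finset.sum_mul, ← Finset.sum_add_distrib]
          exact Finset.sum_congr rfl fun i _ => by ring
        rw [h3, ha]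
        exact hs)
    rw [Fin.sum_univ_castSucc]
    have h4 : (fr p (s (Fin.last d))) ⊗ₜ[R] (⟨x (Fin.last d), hx _⟩ : J) =
        ∑ i : Fin d, (fr p (x (Fin.last d) ^ p * a i)) ⊗ₜ[R]
          (⟨x i.castSucc, hx i.castSucc⟩ : J) := by
      rw [← ha]
      have h5 : fr p (∑ i : Fin d, a i * x i.castSucc ^ p) =
          ∑ i : Fin d, fr p (x i.castSucc ^ p * a i) := by
        have : ∑ i : Fin d, a i * x i.castSucc ^ p = ∑ i : Fin d, x i.castSucc ^ p * a i :=
          Finset.sum_congr rfl fun i _ => mul_comm _ _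
        rw [this]
        rfl
      rw [h5, TensorProduct.sum_tmul]
      refine Finset.sum_congr rfl fun i _ => ?_
      rw [fr_tmul, fr_tmul]
      congr 1
      apply Subtype.ext
      change x i.castSucc * x (Fin.last d) = x (Fin.last d) * x i.castSucc
      ring
    rw [h4, ← Finset.sum_add_distrib]
    rw [← h2]
    refine Finset.sum_congr rfl fun i _ => ?_
    rw [← TensorProduct.add_tmul, ← fr_add]

/-- `F(m) → F(R)` is injective. -/
lemma inj_max [IsLocalRing R] {d : ℕ} {x : Fin d → R}
    (hx : Ideal.span (Set.range x) = maximalIdeal R)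
    (hw : IsWeaklyRegular R (List.ofFn fun i => x i ^ p)) :
    Function.Injective ((maximalIdeal R).subtype.lTensor (Fr R p)) := by
  have hxm : ∀ i, x i ∈ maximalIdeal R := fun i => by
    rw [← hx]; exact Ideal.subset_span ⟨i, rfl⟩
  rw [injective_iff_map_eq_zero]
  intro η hη
  obtain ⟨s, rfl⟩ : ∃ s : Fin d → R,
      η = ∑ i, (fr p (s i)) ⊗ₜ[R] (⟨x i, hxm i⟩ : maximalIdeal R) := by
    clear hη
    induction η using TensorProduct.induction_on with
    | zero =>
      refine ⟨0, ?_⟩
      symm
      refine Finset.sum_eq_zero fun i _ => ?_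
      exact TensorProduct.zero_tmul _ _
    | tmul t w =>
      obtain ⟨w, hw⟩ := w
      obtain ⟨a, ha⟩ := (Submodule.mem_span_range_iff_exists_fun R).1
        (show w ∈ Submodule.span R (Set.range x) by
          change w ∈ Ideal.span (Set.range x)
          rw [hx]; exact hw)
      refine ⟨fun i => a i ^ p * (show R from t), ?_⟩
      have h1 : (⟨w, hw⟩ : maximalIdeal R) = ∑ i, a i • (⟨x i, hxm i⟩ : maximalIdeal R) := by
        apply Subtype.ext
        rw [AddSubmonoidClass.coe_finsetSum]
        exact ha.symm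
      rw [h1, TensorProduct.tmul_sum]
      refine Finset.sum_congr rfl fun i _ => ?_
      rw [fr_tmul]
      rfl
    | add y z hy hz =>
      obtain ⟨s, rfl⟩ := hy
      obtain ⟨t, rfl⟩ := hz
      refine ⟨s + t, ?_⟩
      rw [← Finset.sum_add_distrib]
      refine Finset.sum_congr rfl fun i _ => ?_
      rw [← TensorProduct.add_tmul]
      rfl
  apply rel (maximalIdeal R) d x hxm hw
  have h2 := congrArg (TensorProduct.rid R (Fr R p)) hη
  rw [map_zero, map_sum, map_sum] at h2
  have h3 : ∀ i, (TensorProduct.rid R (Fr R p)) ((maximalIdeal R).subtype.lTensor (Fr R p)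
      ((fr p (s i)) ⊗ₜ[R] (⟨x i, hxm i⟩ : maximalIdeal R))) = fr p (x i ^ p * s i) := fun i => by
    rw [LinearMap.lTensor_tmul, TensorProduct.rid_tmul]
    exact fr_smul _ _
  simp only [h3] at h2
  have h4 : ∑ i, s i * x i ^ p = ∑ i, x i ^ p * s i :=
    Finset.sum_congr rfl fun i _ => mul_comm _ _
  rw [h4]
  exact h2

/-- One step: `F(A) → F(B)` is injective if `B / A` is simple. -/
lemma inj_step [IsLocalRing R]
    (hinj : Function.Injective ((maximalIdeal R).subtype.lTensor (Fr R p)))
    {B : Type u} [AddCommGroup B] [Module R B] (A : Submodule R B) (b : B) (hb : b ∉ A)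
    (htop : A ⊔ Submodule.span R {b} = ⊤) (hm : ∀ r ∈ maximalIdeal R, r • b ∈ A) :
    Function.Injective (A.subtype.lTensor (Fr R p)) := by
  let φ : maximalIdeal R →ₗ[R] (A × R) :=
    { toFun := fun r => (- ⟨r.1 • b, hm r.1 r.2⟩, r.1)
      map_add' := fun r s => by
        ext
        · simp [add_smul]; abel
        · rfl
      map_smul' := fun r s => by
        ext
        · simp [mul_smul]
        · rfl }
  let ψ : (A × R) →ₗ[R] B :=
    { toFun := fun a => a.1.1 + a.2 • b
      map_add' := fun a a' => by simp [add_smul]; abel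
      map_smul' := fun r a => by simp [mul_smul] }
  have hψ : Function.Surjective ψ := by
    intro y
    have hy : y ∈ A ⊔ Submodule.span R {b} := htop ▸ Submodule.mem_top
    obtain ⟨a, ha, z, hz, rfl⟩ := Submodule.mem_sup.1 hy
    obtain ⟨r, rfl⟩ := Submodule.mem_span_singleton.1 hz
    exact ⟨(⟨a, ha⟩, r), rfl⟩
  have hex : Function.Exact φ ψ := by
    rintro ⟨a, r⟩
    constructor
    · intro h
      change a.1 + r • b = 0 at h
      have hr : r ∈ maximalIdeal R := by
        by_contra hcon
        have hu : IsUnit r := by simpa using hcon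
        obtain ⟨v, hv⟩ := hu.exists_left_inv
        apply hb
        have : b = - (v • a.1) := by
          rw [eq_neg_of_add_eq_zero_left h, smul_neg, smul_smul, hv, one_smul, neg_neg]
        rw [this]
        exact A.neg_mem (A.smul_mem _ a.2)
      refine ⟨⟨r, hr⟩, ?_⟩
      ext
      · change - (r • b) = a.1
        rw [eq_neg_of_add_eq_zero_left h]
      · rfl
    · rintro ⟨r, hr⟩
      rw [← hr]
      change - (r.1 • b) + r.1 • b = 0
      abel
  have hT := lTensor_exact (Fr R p) hex hψ
  rw [injective_iff_map_eq_zero]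
  intro ξ hξ
  have h1 : ψ.lTensor (Fr R p) ((LinearMap.inl R A R).lTensor (Fr R p) ξ) = 0 := by
    rw [← LinearMap.comp_apply, ← LinearMap.lTensor_comp]
    have : ψ.comp (LinearMap.inl R A R) = A.subtype := by
      ext a; simp [ψ]
    rw [this, hξ]
  obtain ⟨η, hη⟩ := (hT _).1 h1
  have h2 : η = 0 := by
    apply hinj
    rw [map_zero]
    have h3 : (LinearMap.snd R A R).comp φ = (maximalIdeal R).subtype := by
      ext r; rfl
    rw [← h3, LinearMap.lTensor_comp, LinearMap.comp_apply, hη, ← LinearMap.comp_apply,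
      ← LinearMap.lTensor_comp]
    have h4 : (LinearMap.snd R A R).comp (LinearMap.inl R A R) = 0 := by
      ext r; rfl
    rw [h4]
    simp
  rw [h2, map_zero] at hη
  have h5 : ξ = (LinearMap.fst R A R).lTensor (Fr R p)
      ((LinearMap.inl R A R).lTensor (Fr R p) ξ) := by
    rw [← LinearMap.comp_apply, ← LinearMap.lTensor_comp]
    have : (LinearMap.fst R A R).comp (LinearMap.inl R A R) = LinearMap.id := by
      ext r; rfl
    rw [this]
    simp
  rw [h5, ← hη, map_zero]

end

end Pool.Agent.FMod
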