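import Pool.Agent.FMod.Star

/-!
End of the main induction.
-/

set_option autoImplicit false

namespace Pool.Agent.FMod

variable {c : ℕ} {R M : Type*} [CommRing R] [AddCommGroup M] [Module R M]
variable {p : ℕ} (D : Data R M p)

/-- The hypothesis of vanishing at a prime, for all positive exponents, on a finite level. -/
lemma vanish_level (S₀ : Submonoid R) (f : Fin c → R) (i : ℤ)
    (h1 : ∀ z ∈ Z f (fun _ => 1) (⊤ : Submodule R M) i, ∃ s ∈ S₀,
      s • z ∈ B f (fun _ => 1) (⊤ : Submodule R M) i)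
    (n : Fin c → ℕ) (hn : ∀ j, 1 ≤ n j) (z : Finset (Fin c) → M)
    (hz : z ∈ Z f n (⊤ : Submodule R M) i) : ∃ s ∈ S₀, ∃ b, s • z ∈ B f n (D.Mf b) i := by
  obtain ⟨s, hs, v, hv, hv'⟩ := vanish S₀ f i h1 _ n rfl hn z hz
  have h2 : ∀ S, ∃ e, v S ∈ D.Mf e := fun S => D.union (v S)
  choose e he using h2
  obtain ⟨b, hb⟩ : ∃ b, ∀ S, e S ≤ b :=
    ⟨Finset.univ.sup e, fun S => Finset.le_sup (Finset.mem_univ S)⟩
  exact ⟨s, hs, b, v, fun S => ⟨D.mono (hb S) (he S), (hv S).2⟩, hv'⟩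

/-- The connecting maps vanish after inverting one element, uniformly. -/
theorem claimA [IsNoetherianRing R] (hp : 1 ≤ p) (S₀ : Submonoid R) {f : Fin c → R} {i : ℤ}
    (h1 : ∀ z ∈ Z f (fun _ => 1) (⊤ : Submodule R M) i, ∃ s ∈ S₀,
      s • z ∈ B f (fun _ => 1) (⊤ : Submodule R M) i)
    {s : R} (hs : s ∈ S₀) (κ : Fin c) (hlift : Lift D f i s (κ : ℕ) (κ : ℕ)) :
    ∃ s' ∈ S₀, ∃ b' : ℕ, ∀ (e : ℕ) (n : Fin c → ℕ), (∀ l, n l ≤ p ^ e) →
      ∀ ζ ∈ Z f (mix p κ n e) (D.Mf e) (i - 1),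
        InBs f s' (mix p (κ + 1) n (e + b')) (D.Mf (e + b')) i
          (al f (gap c p (κ + 1) e (e + b')) (eOp R κ ζ)) := by
  obtain ⟨A, hA⟩ := hlift
  -- agreement of the exponents off `κ`
  have hagree : ∀ (n : Fin c → ℕ) (m : ℕ) (l : Fin c), l ≠ κ →
      mix p (κ + 1) n m l = mix p κ n m l := by
    intro n m l hl
    have : (l : ℕ) ≠ κ := fun h => hl (Fin.ext h)
    have h2 : ((l : ℕ) < κ + 1) ↔ ((l : ℕ) < κ) := by omega
    simp only [mix, h2]
  set one : Fin c → ℕ := fun _ => 1 with hone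
  have hW := D.Z_fg f (mix p κ one A) A (i - 1)
  obtain ⟨t, ht, b, hb, hw⟩ := unif S₀ _ hW
    (fun b => B f (mix p (κ + 1) one A) (D.Mf b) i)
    (fun b b' h => B_mono (D.mono h)) (eOp R κ) (by
      intro w hw
      refine vanish_level D S₀ f i h1 _ ?_ _ (Z_mono le_top (eOp_Z hw (by ring) (hagree one A)))
      intro j
      simp only [mix, one]
      split_ifs
      · exact le_rfl
      · exact Nat.one_le_pow _ _ hp) A
  refine ⟨t * s, S₀.mul_mem ht hs, b, fun e n hn ζ hζ => ?_⟩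
  obtain ⟨K, ζ', hζ', hd⟩ := hA e n hn ζ hζ
  set q : Fin c → ℕ := fun _ => p ^ e with hq
  -- `ζ'` comes from level `A` by the `e`-th iterate
  have hmix : mix p κ (n + low p κ n e) (e + A) = p ^ e • mix p κ one A := by
    rw [smul_mix, add_comm e A]
    funext l
    have := hn l
    simp only [mix, low, one, Pi.add_apply, Pi.smul_apply, smul_eq_mul, mul_one]
    split_ifs
    · omega
    · rfl
  have hζ2 : ζ' ∈ Submodule.span R (vT c (D.uP e) '' (Z f (mix p κ one A) (D.Mf A) (i - 1) :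
      Set _)) := by
    apply D.Z_span f _ A e (i - 1)
    rw [← hmix, add_comm A e]
    exact hζ'
  have hmix2 : p ^ e • mix p (κ + 1) one b = mix p (κ + 1) (n + low p (κ + 1) n e) (e + b) := by
    rw [smul_mix, add_comm e b]
    funext l
    have := hn l
    simp only [mix, low, one, Pi.add_apply, Pi.smul_apply, smul_eq_mul, mul_one]
    split_ifs
    · omega
    · rfl
  have hstep : ∀ x ∈ Submodule.span R (vT c (D.uP e) '' (Z f (mix p κ one A) (D.Mf A) (i - 1) :
      Set _)), t ^ p ^ e • al f (gap c p (κ + 1) (e + A) (e + b)) (eOp R κ x) ∈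
        B f (mix p (κ + 1) (n + low p (κ + 1) n e) (e + b)) (D.Mf (e + b)) i := by
    intro x hx
    induction hx using Submodule.span_induction with
    | mem y hy =>
      obtain ⟨w, hw1, rfl⟩ := hy
      have h2 := al_B (hw w hw1) (mix_add_gap (c := c) (n := one) (k := (κ : ℕ) + 1) hp hb)
      have h3 := D.vT_B f _ b e h2
      rw [map_smul, vT_smul (D.uP_smul e), vT_al (D.uP_smul e), vT_eOp, smul_gap, hmix2,
        add_comm b e, add_comm A e] at h3
      exact h3
    | zero => rw [map_zero, map_zero, smul_zero]; exact Submodule.zero_mem _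
    | add y z _ _ hy hz => rw [map_add, map_add, smul_add]; exact Submodule.add_mem _ hy hz
    | smul r y _ hy =>
      rw [map_smul, map_smul, smul_comm]; exact Submodule.smul_mem _ _ hy
  have h3 := hstep ζ' hζ2
  have h4 : t ^ p ^ e • al f (gap c p (κ + 1) (e + A) (e + b)) (eOp R κ (be f (low p κ n e) ζ')) ∈
      B f (mix p (κ + 1) n (e + b)) (D.Mf (e + b)) i := by
    have h5 : be f (low p (κ + 1) n e)
        (t ^ p ^ e • al f (gap c p (κ + 1) (e + A) (e + b)) (eOp R κ ζ')) ∈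
        B f (mix p (κ + 1) n (e + b)) (D.Mf (e + b)) i := by
      refine be_B h3 ?_
      funext l
      simp only [mix, low, Pi.add_apply]
      split_ifs <;> rfl
    have hlow : low p (κ + 1) n e = low p κ n e + Pi.single κ (p ^ e - n κ) := by
      funext l
      by_cases hl : l = κ
      · subst hl; simp [low]
      · have : (l : ℕ) ≠ κ := fun h => hl (Fin.ext h)
        simp only [low, Pi.add_apply, Pi.single_eq_of_ne hl, add_zero]
        have h2 : ((l : ℕ) < κ + 1) ↔ ((l : ℕ) < κ) := by omega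
        simp only [h2]
    have hlow0 : low p κ n e κ = 0 := by simp [low]
    rw [map_smul, ← al_be, hlow, ← be_be, be_single_eOp, ← eOp_be_of_eq_zero f hlow0] at h5
    exact h5
  have h6 : al f (gap c p (κ + 1) (e + A) (e + b))
      (eOp R κ (s ^ K • al f (gap c p κ e (e + A)) ζ - be f (low p κ n e) ζ')) ∈
      B f (mix p (κ + 1) n (e + b)) (D.Mf (e + b)) i := by
    refine B_mono (D.mono (by omega)) (al_B (eOp_B hd (by ring) (hagree n (e + A))) ?_)
    exact mix_add_gap hp (by omega)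
  have h7 := Submodule.add_mem _ (Submodule.smul_mem _ (t ^ p ^ e) h6) h4
  have hgap : gap c p κ e (e + A) = gap c p (κ + 1) e (e + A) +
      Pi.single κ (p ^ (e + A) - p ^ e) := by
    funext l
    by_cases hl : l = κ
    · subst hl; simp [gap]
    · have : (l : ℕ) ≠ κ := fun h => hl (Fin.ext h)
      simp only [gap, Pi.add_apply, Pi.single_eq_of_ne hl, add_zero]
      have h2 : ((l : ℕ) < κ + 1) ↔ ((l : ℕ) < κ) := by omega
      simp only [h2]
  have hgap0 : gap c p (κ + 1) e (e + A) κ = 0 := by simp [gap]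
  have h8 : eOp R κ (al f (gap c p κ e (e + A)) ζ) =
      al f (gap c p (κ + 1) e (e + A)) (eOp R κ ζ) := by
    rw [hgap, ← al_al, eOp_al_of_eq_zero f hgap0, eOp_al_single]
  have h9 : t ^ p ^ e • al f (gap c p (κ + 1) (e + A) (e + b))
      (eOp R κ (s ^ K • al f (gap c p κ e (e + A)) ζ - be f (low p κ n e) ζ')) +
      t ^ p ^ e • al f (gap c p (κ + 1) (e + A) (e + b)) (eOp R κ (be f (low p κ n e) ζ')) =
      (t ^ p ^ e * s ^ K) • al f (gap c p (κ + 1) e (e + b)) (eOp R κ ζ) := by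
    rw [map_sub, map_sub, smul_sub, sub_add_cancel, map_smul, map_smul, h8, al_al,
      gap_add_gap hp (Nat.le_add_right e A) (by omega), smul_smul]
  rw [h9] at h7
  refine ⟨p ^ e + K, ?_⟩
  have h10 : (t * s) ^ (p ^ e + K) = (t ^ K * s ^ p ^ e) * (t ^ p ^ e * s ^ K) := by
    rw [mul_pow, pow_add, pow_add]; ring
  rw [h10, mul_smul]
  exact Submodule.smul_mem _ _ h7

/-- The induction step. -/
theorem star_succ [IsNoetherianRing R] (hp : 1 ≤ p) (S₀ : Submonoid R) {f : Fin c → R} {i : ℤ}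
    (h1 : ∀ z ∈ Z f (fun _ => 1) (⊤ : Submodule R M) i, ∃ s ∈ S₀,
      s • z ∈ B f (fun _ => 1) (⊤ : Submodule R M) i)
    (κ : Fin c) (hstar : Star D S₀ f i κ) : Star D S₀ f i (κ + 1) := by
  obtain ⟨s, hs, a, hstar⟩ := hstar
  obtain ⟨s', hs', b', hA⟩ := claimA D hp S₀ h1 hs κ
    (lift_all D hp κ.2.le hstar κ le_rfl)
  refine ⟨s' * s, S₀.mul_mem hs' hs, a + b', fun e n hn z hz => ?_⟩
  have hpe : p ^ e ≤ p ^ (e + a) := Nat.pow_le_pow_right hp (by omega)
  have hnκ := hn κ
  set z' := al f (gap c p (κ + 1) e (e + a)) z with hz'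
  have hz'Z : z' ∈ Z f (mix p (κ + 1) n (e + a)) (D.Mf (e + a)) i :=
    Z_mono (D.mono (by omega)) (al_Z hz (mix_add_gap hp (by omega)))
  have h2 : al f (Pi.single κ (p ^ e - n κ)) z ∈ Z f (mix p κ n e) (D.Mf e) i := by
    refine al_Z hz ?_
    funext l
    by_cases hl : l = κ
    · subst hl
      simp [mix]; omega
    · have : (l : ℕ) ≠ κ := fun h => hl (Fin.ext h)
      simp only [mix, Pi.add_apply, Pi.single_eq_of_ne hl, add_zero]
      have h2 : ((l : ℕ) < κ + 1) ↔ ((l : ℕ) < κ) := by omega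
      simp only [h2]
  obtain ⟨K, hK⟩ := hstar e n hn _ h2
  have h3 : al f (gap c p κ e (e + a)) (al f (Pi.single κ (p ^ e - n κ)) z) =
      al f (Pi.single κ (p ^ (e + a) - n κ)) z' := by
    rw [hz', al_al, al_al]
    congr 1
    congr 1
    funext l
    by_cases hl : l = κ
    · subst hl
      simp [gap]; omega
    · have : (l : ℕ) ≠ κ := fun h => hl (Fin.ext h)
      simp only [gap, Pi.add_apply, Pi.single_eq_of_ne hl, add_zero, zero_add]
      have h2 : ((l : ℕ) < κ + 1) ↔ ((l : ℕ) < κ) := by omega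
      simp only [h2]
  rw [h3, ← map_smul] at hK
  set na := mix p (κ + 1) n (e + a) with hna
  set nb := Function.update na κ (p ^ (e + a) - n κ) with hnb
  have hnaκ : na κ = n κ := by simp [na, mix]
  have hnbκ : nb κ = p ^ (e + a) - n κ := by simp [nb]
  have hb : ∀ l, l ≠ κ → nb l = na l := fun l hl => by simp [nb, hl]
  have hab : ∀ l, l ≠ κ → mix p κ n (e + a) l = na l := by
    intro l hl
    have : (l : ℕ) ≠ κ := fun h => hl (Fin.ext h)
    simp only [na, mix]
    have h2 : ((l : ℕ) < κ + 1) ↔ ((l : ℕ) < κ) := by omega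
    simp only [h2]
  have hmκ : mix p κ n (e + a) κ = p ^ (e + a) := by simp [mix]
  obtain ⟨ζ, hζ, hζ'⟩ := exact1 (na := na) (nb := nb) (nab := mix p κ n (e + a)) hb hab
    (by rw [hmκ, hnaκ, hnbκ]; omega) (Submodule.smul_mem _ (s ^ K) hz'Z) (by
      rw [hnbκ]; exact hK)
  have h4 : al f (Pi.single κ (n κ)) ζ ∈ Z f (mix p κ n (e + a)) (D.Mf (e + a)) (i - 1) := by
    refine al_Z hζ ?_
    funext l
    by_cases hl : l = κ
    · subst hl
      rw [hmκ, Pi.add_apply, hnbκ, Pi.single_eq_same]; omega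
    · rw [Pi.add_apply, Pi.single_eq_of_ne hl, add_zero, hb l hl, hab l hl]
  obtain ⟨K', hK'⟩ := hA (e + a) n (fun l => (hn l).trans hpe) _ h4
  rw [eOp_al_single] at hK'
  have h5 : al f (gap c p (κ + 1) (e + a) (e + a + b')) (s ^ K • z' - eOp R κ ζ) ∈
      B f (mix p (κ + 1) n (e + a + b')) (D.Mf (e + a + b')) i :=
    B_mono (D.mono (by omega)) (al_B hζ' (mix_add_gap hp (by omega)))
  have h6 := Submodule.add_mem _ (Submodule.smul_mem _ (s' ^ K') h5) hK'
  rw [map_sub, smul_sub, sub_add_cancel, map_smul, hz', al_al,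
    gap_add_gap hp (Nat.le_add_right e a) (Nat.le_add_right (e + a) b'), smul_smul] at h6
  rw [show e + (a + b') = e + a + b' by ring]
  refine ⟨K' + K, ?_⟩
  have h10 : (s' * s) ^ (K' + K) = (s' ^ K * s ^ K') * (s' ^ K' * s ^ K) := by
    rw [mul_pow, pow_add, pow_add]; ring
  rw [h10, mul_smul]
  exact Submodule.smul_mem _ _ h6

/-- The start of the induction. -/
theorem star_zero [IsNoetherianRing R] (hp : 1 ≤ p) (S₀ : Submonoid R) {f : Fin c → R} {i : ℤ}
    (h1 : ∀ z ∈ Z f (fun _ => 1) (⊤ : Submodule R M) i, ∃ s ∈ S₀,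
      s • z ∈ B f (fun _ => 1) (⊤ : Submodule R M) i) : Star D S₀ f i 0 := by
  set one : Fin c → ℕ := fun _ => 1 with hone
  obtain ⟨t, ht, b, -, hw⟩ := unif S₀ _ (D.Z_fg f one 0 i)
    (fun b => B f one (D.Mf b) i) (fun b b' h => B_mono (D.mono h)) LinearMap.id (by
      intro w hw
      exact vanish_level D S₀ f i h1 _ (fun _ => le_rfl) _ (Z_mono le_top hw)) 0
  refine ⟨t, ht, b, fun e n _ z hz => ⟨p ^ e, ?_⟩⟩
  have hmix : ∀ m, mix p 0 n m = mix p 0 one m := fun m => by funext l; simp [mix]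
  have hmix0 : mix p 0 n e = p ^ e • one := by
    funext l; simp [mix, one]
  rw [hmix0] at hz
  have hz2 := D.Z_span f one 0 e i (by rw [zero_add]; exact hz)
  have hstep : ∀ x ∈ Submodule.span R (vT c (D.uP e) '' (Z f one (D.Mf 0) i : Set _)),
      t ^ p ^ e • al f (gap c p 0 e (e + b)) x ∈
        B f (mix p 0 n (e + b)) (D.Mf (e + b)) i := by
    intro x hx
    induction hx using Submodule.span_induction with
    | mem y hy =>
      obtain ⟨w, hw1, rfl⟩ := hy
      have h2 : al f (gap c p 0 0 b) (t • w) ∈ B f (mix p 0 one b) (D.Mf b) i := by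
        refine al_B (hw w hw1) ?_
        rw [mix_add_gap hp (Nat.zero_le b)]
        rfl
      have h3 := D.vT_B f _ b e h2
      rw [map_smul, vT_smul (D.uP_smul e), vT_al (D.uP_smul e), smul_gap, smul_mix, zero_add,
        add_comm b e] at h3
      have h4 : mix p 0 (p ^ e • one) (e + b) = mix p 0 n (e + b) := by
        funext l; simp [mix]
      rw [h4] at h3
      exact h3
    | zero => rw [map_zero, smul_zero]; exact Submodule.zero_mem _
    | add y z _ _ hy hz => rw [map_add, smul_add]; exact Submodule.add_mem _ hy hz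
    | smul r y _ hy =>
      rw [map_smul, smul_comm]; exact Submodule.smul_mem _ _ hy
  exact hstep z hz2

theorem star_all [IsNoetherianRing R] (hp : 1 ≤ p) (S₀ : Submonoid R) {f : Fin c → R} {i : ℤ}
    (h1 : ∀ z ∈ Z f (fun _ => 1) (⊤ : Submodule R M) i, ∃ s ∈ S₀,
      s • z ∈ B f (fun _ => 1) (⊤ : Submodule R M) i) :
    ∀ k, k ≤ c → Star D S₀ f i k := by
  intro k
  induction k with
  | zero => intro _; exact star_zero D hp S₀ h1
  | succ k ih =>
    intro hk
    exact star_succ D hp S₀ h1 ⟨k, by omega⟩ (ih (by omega))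

/-- If the cohomology vanishes at a prime, then it vanishes after inverting a single element
outside the prime. -/
theorem vanish_nbhd {p : ℕ} (D : Data R M p) [IsNoetherianRing R] (hp : 1 ≤ p) (S₀ : Submonoid R) {f : Fin c → R} {i : ℤ}
    (h1 : ∀ z ∈ Z f (fun _ => 1) (⊤ : Submodule R M) i, ∃ s ∈ S₀,
      s • z ∈ B f (fun _ => 1) (⊤ : Submodule R M) i) :
    ∃ s ∈ S₀, ∀ z ∈ Z f (fun _ => 1) (⊤ : Submodule R M) i, ∃ k : ℕ,
      s ^ k • z ∈ B f (fun _ => 1) (⊤ : Submodule R M) i := by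
  obtain ⟨s, hs, a, h⟩ := star_all D hp S₀ h1 c le_rfl
  refine ⟨s, hs, fun z hz => ?_⟩
  have h2 : ∀ S, ∃ e, z S ∈ D.Mf e := fun S => D.union (z S)
  choose e he using h2
  obtain ⟨b, hb⟩ : ∃ b, ∀ S, e S ≤ b :=
    ⟨Finset.univ.sup e, fun S => Finset.le_sup (Finset.mem_univ S)⟩
  have hmix : ∀ m, mix p c (fun _ : Fin c => 1) m = fun _ => 1 := by
    intro m
    funext l
    simp [mix]
  have hgap : ∀ m m', gap c p c m m' = 0 := by
    intro m m'
    funext l
    simp [gap]
  obtain ⟨k, hk⟩ := h b (fun _ => 1) (fun _ => Nat.one_le_pow _ _ hp) z (by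
    rw [hmix]
    exact mem_Z.2 ⟨fun S => ⟨D.mono (hb S) (he S), ((mem_Z.1 hz).1 S).2⟩, (mem_Z.1 hz).2⟩)
  rw [hmix, hgap, al_zero] at hk
  exact ⟨k, B_mono le_top hk⟩

end Pool.Agent.FMod
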