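import Pool.Agent.FMod.Core
import Pool.Agent.FMod.Defs

/-!
Operators on functions from the set of all subsets of `{0, …, c-1}` to a module: exterior
multiplication, contraction, the Koszul differential, and the comparison maps between Koszul
cocomplexes for different powers of the same elements.
-/

set_option autoImplicit false

namespace Pool.Agent.FMod

variable {c : ℕ}

lemma ksign_insert {j l : Fin c} {S : Finset (Fin c)} (hj : j ∉ S) :
    ksign l (insert j S) = if j < l then - ksign l S else ksign l S := by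
  unfold ksign
  rw [Finset.filter_insert]
  split_ifs with h
  · rw [Finset.card_insert_of_notMem (by simp [hj]), pow_succ]; ring
  · rfl

lemma ksign_erase {j l : Fin c} {S : Finset (Fin c)} (hj : j ∈ S) :
    ksign l (S.erase j) = if j < l then - ksign l S else ksign l S := by
  have h := ksign_insert (l := l) (Finset.notMem_erase j S)
  rw [Finset.insert_erase hj] at h
  rw [h]
  split_ifs <;> simp

lemma ksign_mul_self (j : Fin c) (S : Finset (Fin c)) : ksign j S * ksign j S = 1 := by
  unfold ksign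
  rw [← pow_add, ← two_mul, pow_mul]; simp

variable {R N : Type*} [CommRing R] [AddCommGroup N] [Module R N]

/-- Exterior multiplication by the basis vector `e_j`. -/
def eOp (R : Type*) [CommRing R] [Module R N] (j : Fin c) :
    (Finset (Fin c) → N) →ₗ[R] (Finset (Fin c) → N) where
  toFun ω := fun S => if j ∈ S then ksign j S • ω (S.erase j) else 0
  map_add' x y := by
    funext S
    by_cases h : j ∈ S <;> simp [h]
  map_smul' r x := by
    funext S
    by_cases h : j ∈ S
    · simp only [h, if_true, Pi.smul_apply, RingHom.id_apply]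
      exact smul_comm _ _ _
    · simp [h]

/-- Contraction against the dual basis vector. -/
def iOp (R : Type*) [CommRing R] [Module R N] (j : Fin c) :
    (Finset (Fin c) → N) →ₗ[R] (Finset (Fin c) → N) where
  toFun ω := fun S => if j ∈ S then 0 else ksign j S • ω (insert j S)
  map_add' x y := by
    funext S
    by_cases h : j ∈ S <;> simp [h]
  map_smul' r x := by
    funext S
    by_cases h : j ∈ S
    · simp [h]
    · simp only [h, if_false, Pi.smul_apply, RingHom.id_apply]
      exact smul_comm _ _ _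

lemma eOp_apply (j : Fin c) (ω : Finset (Fin c) → N) (S : Finset (Fin c)) :
    eOp R j ω S = if j ∈ S then ksign j S • ω (S.erase j) else 0 := rfl

lemma iOp_apply (j : Fin c) (ω : Finset (Fin c) → N) (S : Finset (Fin c)) :
    iOp R j ω S = if j ∈ S then 0 else ksign j S • ω (insert j S) := rfl

lemma eOp_eOp_self (j : Fin c) (ω : Finset (Fin c) → N) : eOp R j (eOp R j ω) = 0 := by
  funext S
  simp [eOp_apply]

lemma iOp_iOp_self (j : Fin c) (ω : Finset (Fin c) → N) : iOp R j (iOp R j ω) = 0 := by
  funext S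
  simp [iOp_apply]

lemma iOp_eOp_add (j : Fin c) (ω : Finset (Fin c) → N) :
    iOp R j (eOp R j ω) + eOp R j (iOp R j ω) = ω := by
  funext S
  by_cases h : j ∈ S
  · simp only [Pi.add_apply, iOp_apply, eOp_apply, h, if_true, Finset.mem_erase, ne_eq,
      not_true_eq_false, false_and, if_false, zero_add, Finset.insert_erase h, smul_smul]
    rw [ksign_erase h, if_neg (lt_irrefl j), ksign_mul_self, one_smul]
  · simp only [Pi.add_apply, iOp_apply, eOp_apply, h, if_false, Finset.mem_insert, true_or,
      if_true, add_zero, Finset.erase_insert h, smul_smul]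
    rw [ksign_insert h, if_neg (lt_irrefl j), ksign_mul_self, one_smul]

lemma eOp_anti {j l : Fin c} (hjl : j ≠ l) (ω : Finset (Fin c) → N) :
    eOp R j (eOp R l ω) = - eOp R l (eOp R j ω) := by
  funext S
  simp only [Pi.neg_apply, eOp_apply]
  by_cases hj : j ∈ S
  · by_cases hl : l ∈ S
    · have h1 : l ∈ S.erase j := Finset.mem_erase.2 ⟨hjl.symm, hl⟩
      have h2 : j ∈ S.erase l := Finset.mem_erase.2 ⟨hjl, hj⟩
      simp only [hj, hl, h1, h2, if_true, smul_smul, ksign_erase hj, ksign_erase hl,
        Finset.erase_right_comm (a := j) (b := l)]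
      rcases lt_or_gt_of_ne hjl with h | h
      · rw [if_pos h, if_neg (not_lt.2 h.le)]
        rw [← neg_smul]; congr 1; ring
      · rw [if_neg (not_lt.2 h.le), if_pos h]
        rw [← neg_smul]; congr 1; ring
    · have h1 : l ∉ S.erase j := fun h => hl (Finset.mem_of_mem_erase h)
      simp [hj, hl, h1]
  · have h2 : j ∉ S.erase l := fun h => hj (Finset.mem_of_mem_erase h)
    simp [hj, h2]

lemma iOp_eOp_anti {j l : Fin c} (hjl : j ≠ l) (ω : Finset (Fin c) → N) :
    iOp R j (eOp R l ω) = - eOp R l (iOp R j ω) := by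
  funext S
  simp only [Pi.neg_apply, eOp_apply, iOp_apply]
  by_cases hj : j ∈ S
  · have h2 : j ∈ S.erase l := Finset.mem_erase.2 ⟨hjl, hj⟩
    simp [hj, h2]
  · by_cases hl : l ∈ S
    · have h1 : l ∈ insert j S := Finset.mem_insert_of_mem hl
      have h2 : j ∉ S.erase l := fun h => hj (Finset.mem_of_mem_erase h)
      have h3 : (insert j S).erase l = insert j (S.erase l) :=
        Finset.erase_insert_of_ne hjl
      simp only [hj, hl, h1, h2, if_true, if_false, smul_smul, h3, ksign_insert hj,
        ksign_erase hl]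
      rcases lt_or_gt_of_ne hjl with h | h
      · rw [if_pos h, if_neg (not_lt.2 h.le)]
        rw [← neg_smul]; congr 1; ring
      · rw [if_neg (not_lt.2 h.le), if_pos h]
        rw [← neg_smul]; congr 1; ring
    · have h1 : l ∉ insert j S := by
        simp [hl, hjl.symm]
      simp [hj, hl, h1]

/-- The Koszul differential for `f_j ^ (n j)` on all degrees at once. -/
def dOp (f : Fin c → R) (n : Fin c → ℕ) : (Finset (Fin c) → N) →ₗ[R] (Finset (Fin c) → N) :=
  ∑ j, f j ^ n j • eOp R j

/-- The part of the Koszul differential that does not involve `e_j`. -/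
def dOff (f : Fin c → R) (n : Fin c → ℕ) (j : Fin c) :
    (Finset (Fin c) → N) →ₗ[R] (Finset (Fin c) → N) :=
  ∑ l ∈ Finset.univ.erase j, f l ^ n l • eOp R l

lemma dOp_apply (f : Fin c → R) (n : Fin c → ℕ) (ω : Finset (Fin c) → N) :
    dOp f n ω = ∑ j, f j ^ n j • eOp R j ω := by
  simp [dOp, LinearMap.sum_apply]

lemma dOff_apply (f : Fin c → R) (n : Fin c → ℕ) (j : Fin c) (ω : Finset (Fin c) → N) :
    dOff f n j ω = ∑ l ∈ Finset.univ.erase j, f l ^ n l • eOp R l ω := by
  simp [dOff, LinearMap.sum_apply]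

lemma dOp_eq (f : Fin c → R) (n : Fin c → ℕ) (j : Fin c) (ω : Finset (Fin c) → N) :
    dOp f n ω = dOff f n j ω + f j ^ n j • eOp R j ω := by
  rw [dOp_apply, dOff_apply, Finset.sum_erase_add _ _ (Finset.mem_univ j)]

lemma dOff_congr (f : Fin c → R) {n m : Fin c → ℕ} {j : Fin c} (h : ∀ l, l ≠ j → n l = m l)
    (ω : Finset (Fin c) → N) : dOff f n j ω = dOff f m j ω := by
  rw [dOff_apply, dOff_apply]
  exact Finset.sum_congr rfl fun l hl => by rw [h l (Finset.ne_of_mem_erase hl)]

lemma car (f : Fin c → R) (n : Fin c → ℕ) (j : Fin c) :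
    CAR (dOff f n j : (Finset (Fin c) → N) →ₗ[R] (Finset (Fin c) → N)) (eOp R j) (iOp R j) where
  ee := eOp_eOp_self j
  ii := iOp_iOp_self j
  ie := iOp_eOp_add j
  de x := by
    rw [dOff_apply, dOff_apply, map_sum, ← Finset.sum_neg_distrib]
    refine Finset.sum_congr rfl fun l hl => ?_
    rw [eOp_anti (Finset.ne_of_mem_erase hl), map_smul, smul_neg]
  di x := by
    rw [dOff_apply, dOff_apply, map_sum, ← Finset.sum_neg_distrib]
    refine Finset.sum_congr rfl fun l hl => ?_
    rw [map_smul, iOp_eOp_anti (Finset.ne_of_mem_erase hl).symm, smul_neg, neg_neg]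

/-- `d ∘ d = 0`. -/
lemma dOp_dOp (f : Fin c → R) (n : Fin c → ℕ) (ω : Finset (Fin c) → N) :
    dOp f n (dOp f n ω) = 0 := by
  have key : ∀ j l : Fin c, (f j ^ n j • eOp R j (f l ^ n l • eOp R l ω)) +
      (f l ^ n l • eOp R l (f j ^ n j • eOp R j ω)) = 0 := by
    intro j l
    by_cases h : j = l
    · subst h; simp [eOp_eOp_self]
    · rw [map_smul, map_smul, eOp_anti h, smul_neg, smul_neg, smul_smul, smul_smul,
        mul_comm (f j ^ n j)]
      simp
  have key2 : ∀ j : Fin c, f j ^ n j • eOp R j (f j ^ n j • eOp R j ω) = 0 := by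
    intro j; simp [eOp_eOp_self]
  rw [dOp_apply, dOp_apply]
  simp only [map_sum, Finset.smul_sum]
  rw [← Finset.sum_product', ]
  refine Finset.sum_involution (fun x _ => (x.2, x.1)) ?_ ?_ ?_ ?_
  · intro x _
    exact key x.1 x.2
  · intro x _ hx h
    apply hx
    have : x.1 = x.2 := by
      have := congrArg Prod.fst h
      exact this.symm
    obtain ⟨a, b⟩ := x
    simp only at this
    subst this
    exact key2 a
  · intro x _; simp
  · intro x _; rfl

/-- Raising exponents: multiply the coefficient of `e_S` by `∏_{j ∈ S} f_j ^ (s j)`. -/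
def al (f : Fin c → R) (s : Fin c → ℕ) : (Finset (Fin c) → N) →ₗ[R] (Finset (Fin c) → N) where
  toFun ω := fun S => (∏ j ∈ S, f j ^ s j) • ω S
  map_add' x y := by funext S; simp
  map_smul' r x := by funext S; exact smul_comm _ _ _

/-- Lowering exponents: multiply the coefficient of `e_S` by `∏_{j ∉ S} f_j ^ (s j)`. -/
def be (f : Fin c → R) (s : Fin c → ℕ) : (Finset (Fin c) → N) →ₗ[R] (Finset (Fin c) → N) where
  toFun ω := fun S => (∏ j ∈ Sᶜ, f j ^ s j) • ω S
  map_add' x y := by funext S; simp
  map_smul' r x := by funext S; exact smul_comm _ _ _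

lemma al_apply (f : Fin c → R) (s : Fin c → ℕ) (ω : Finset (Fin c) → N) (S : Finset (Fin c)) :
    al f s ω S = (∏ j ∈ S, f j ^ s j) • ω S := rfl

lemma be_apply (f : Fin c → R) (s : Fin c → ℕ) (ω : Finset (Fin c) → N) (S : Finset (Fin c)) :
    be f s ω S = (∏ j ∈ Sᶜ, f j ^ s j) • ω S := rfl

lemma al_al (f : Fin c → R) (s t : Fin c → ℕ) (ω : Finset (Fin c) → N) :
    al f s (al f t ω) = al f (s + t) ω := by
  funext S
  simp [al_apply, smul_smul, ← Finset.prod_mul_distrib, pow_add]

lemma be_be (f : Fin c → R) (s t : Fin c → ℕ) (ω : Finset (Fin c) → N) :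
    be f s (be f t ω) = be f (s + t) ω := by
  funext S
  simp [be_apply, smul_smul, ← Finset.prod_mul_distrib, pow_add]

lemma al_be (f : Fin c → R) (s t : Fin c → ℕ) (ω : Finset (Fin c) → N) :
    al f s (be f t ω) = be f t (al f s ω) := by
  funext S
  simp [be_apply, al_apply, smul_smul, mul_comm]

lemma al_zero (f : Fin c → R) (ω : Finset (Fin c) → N) : al f 0 ω = ω := by
  funext S; simp [al_apply]

lemma be_zero (f : Fin c → R) (ω : Finset (Fin c) → N) : be f 0 ω = ω := by
  funext S; simp [be_apply]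

lemma al_eOp (f : Fin c → R) (s : Fin c → ℕ) (j : Fin c) (ω : Finset (Fin c) → N) :
    al f s (eOp R j ω) = f j ^ s j • eOp R j (al f s ω) := by
  funext S
  simp only [al_apply, eOp_apply, Pi.smul_apply]
  by_cases h : j ∈ S
  · simp only [h, if_true]
    rw [← Finset.mul_prod_erase S _ h, mul_smul, smul_comm (ksign j S)]
  · simp [h]

lemma eOp_be (f : Fin c → R) (s : Fin c → ℕ) (j : Fin c) (ω : Finset (Fin c) → N) :
    eOp R j (be f s ω) = f j ^ s j • be f s (eOp R j ω) := by
  funext S
  simp only [be_apply, eOp_apply, Pi.smul_apply]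
  by_cases h : j ∈ S
  · simp only [h, if_true]
    have h1 : (S.erase j)ᶜ = insert j Sᶜ := by
      rw [Finset.compl_erase]
    rw [h1, Finset.prod_insert (by simpa using h), mul_smul,
      smul_comm (ksign j S) (f j ^ s j), smul_comm (ksign j S)]
  · simp [h]

/-- `al` is a map of cocomplexes from the exponents `n` to the exponents `n + s`. -/
lemma dOp_al (f : Fin c → R) (n s : Fin c → ℕ) (ω : Finset (Fin c) → N) :
    dOp f (n + s) (al f s ω) = al f s (dOp f n ω) := by
  rw [dOp_apply, dOp_apply, map_sum]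
  refine Finset.sum_congr rfl fun j _ => ?_
  rw [map_smul, al_eOp, smul_smul, ← pow_add, Pi.add_apply]

/-- `be` is a map of cocomplexes from the exponents `n + s` to the exponents `n`. -/
lemma dOp_be (f : Fin c → R) (n s : Fin c → ℕ) (ω : Finset (Fin c) → N) :
    dOp f n (be f s ω) = be f s (dOp f (n + s) ω) := by
  rw [dOp_apply, dOp_apply, map_sum]
  refine Finset.sum_congr rfl fun j _ => ?_
  rw [map_smul, eOp_be, smul_smul, ← pow_add, Pi.add_apply]

lemma al_single (f : Fin c → R) (j : Fin c) (b : ℕ) (ω : Finset (Fin c) → N) :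
    al f (Pi.single j b) ω = iOp R j (eOp R j ω) + f j ^ b • eOp R j (iOp R j ω) := by
  have h := iOp_eOp_add (R := R) j ω
  funext S
  have hS := congrFun h S
  simp only [al_apply, Pi.add_apply, Pi.smul_apply] at hS ⊢
  by_cases hj : j ∈ S
  · have h1 : iOp R j (eOp R j ω) S = 0 := by simp [iOp_apply, hj]
    have h2 : ∏ l ∈ S, f l ^ (Pi.single j b : Fin c → ℕ) l = f j ^ b := by
      rw [Finset.prod_eq_single_of_mem j hj]
      · simp
      · intro l _ hl; simp [hl]
    rw [h1, zero_add] at hS
    rw [h1, zero_add, hS, h2]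
  · have h1 : eOp R j (iOp R j ω) S = 0 := by simp [eOp_apply, hj]
    have h2 : ∏ l ∈ S, f l ^ (Pi.single j b : Fin c → ℕ) l = 1 := by
      apply Finset.prod_eq_one
      intro l hl
      have : l ≠ j := fun h => hj (h ▸ hl)
      simp [this]
    rw [h1, add_zero] at hS
    rw [h1, smul_zero, add_zero, hS, h2, one_smul]

lemma be_single (f : Fin c → R) (j : Fin c) (b : ℕ) (ω : Finset (Fin c) → N) :
    be f (Pi.single j b) ω = f j ^ b • iOp R j (eOp R j ω) + eOp R j (iOp R j ω) := by
  have h := iOp_eOp_add (R := R) j ω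
  funext S
  have hS := congrFun h S
  simp only [be_apply, Pi.add_apply, Pi.smul_apply] at hS ⊢
  by_cases hj : j ∈ S
  · have h1 : iOp R j (eOp R j ω) S = 0 := by simp [iOp_apply, hj]
    have h2 : ∏ l ∈ Sᶜ, f l ^ (Pi.single j b : Fin c → ℕ) l = 1 := by
      apply Finset.prod_eq_one
      intro l hl
      have : l ≠ j := fun h => (Finset.mem_compl.1 hl) (h ▸ hj)
      simp [this]
    rw [h1, zero_add] at hS
    rw [h1, smul_zero, zero_add, hS, h2, one_smul]
  · have h1 : eOp R j (iOp R j ω) S = 0 := by simp [eOp_apply, hj]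
    have h2 : ∏ l ∈ Sᶜ, f l ^ (Pi.single j b : Fin c → ℕ) l = f j ^ b := by
      rw [Finset.prod_eq_single_of_mem j (Finset.mem_compl.2 hj)]
      · simp
      · intro l _ hl; simp [hl]
    rw [h1, add_zero] at hS
    rw [h1, add_zero, hS, h2]

/-- `e_j ∧` only sees the part without `e_j`. -/
lemma eOp_al_single (f : Fin c → R) (j : Fin c) (b : ℕ) (ω : Finset (Fin c) → N) :
    eOp R j (al f (Pi.single j b) ω) = eOp R j ω := by
  have h := car (N := N) f 0 j
  rw [al_single]
  simp [h.ee, h.eie]

lemma be_single_eOp (f : Fin c → R) (j : Fin c) (b : ℕ) (ω : Finset (Fin c) → N) :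
    be f (Pi.single j b) (eOp R j ω) = eOp R j ω := by
  have h := car (N := N) f 0 j
  rw [be_single]
  simp [h.ee, h.eie]

lemma eOp_al_of_eq_zero (f : Fin c → R) {s : Fin c → ℕ} {j : Fin c} (hs : s j = 0)
    (ω : Finset (Fin c) → N) : eOp R j (al f s ω) = al f s (eOp R j ω) := by
  rw [al_eOp, hs, pow_zero, one_smul]

lemma eOp_be_of_eq_zero (f : Fin c → R) {s : Fin c → ℕ} {j : Fin c} (hs : s j = 0)
    (ω : Finset (Fin c) → N) : eOp R j (be f s ω) = be f s (eOp R j ω) := by
  rw [eOp_be, hs, pow_zero, one_smul]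

/-- `e_j ∧` anticommutes with the differentials, whatever the exponent of `f_j` is. -/
lemma dOp_eOp (f : Fin c → R) {n m : Fin c → ℕ} {j : Fin c} (h : ∀ l, l ≠ j → n l = m l)
    (ω : Finset (Fin c) → N) : dOp f n (eOp R j ω) = - eOp R j (dOp f m ω) := by
  have hc := car (N := N) f m j
  rw [dOp_eq f n j, dOp_eq f m j, dOff_congr f h, hc.de, hc.ee, map_add, map_smul, hc.ee]
  simp

end Pool.Agent.FMod
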