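import Mathlib

/-!
A regular local ring is a domain, and a minimal system of generators of its maximal ideal is a
regular sequence; the same for powers.
-/

set_option autoImplicit false

open IsLocalRing RingTheory.Sequence
open scoped Pointwise

namespace Pool.Agent.FMod

universe u

section

variable {R : Type u} [CommRing R] [IsLocalRing R]

lemma dim_le_of_span [IsNoetherianRing R] {d : ℕ} {x : Fin d → R}
    (hx : Ideal.span (Set.range x) = maximalIdeal R) : ringKrullDim R ≤ d := by
  refine (ringKrullDim_le_spanFinrank_maximalIdeal R).trans ?_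
  rw [← hx]
  have h1 := Submodule.spanFinrank_span_le_ncard_of_finite (R := R) (Set.finite_range x)
  have h2 : (Set.range x).ncard ≤ d := by
    classical
    have := Finset.card_image_le (s := (Finset.univ : Finset (Fin d))) (f := x)
    rw [← Set.ncard_coe_finset] at this
    simpa using this
  exact_mod_cast h1.trans h2

lemma local_quotient {y : R} (hy : y ∈ maximalIdeal R) : IsLocalRing (R ⧸ Ideal.span {y}) := by
  have : Nontrivial (R ⧸ Ideal.span {y}) := by
    apply Ideal.Quotient.nontrivial_iff.2
    intro h
    have h1 : Ideal.span {y} ≤ maximalIdeal R := by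
      rw [Ideal.span_singleton_le_iff_mem]; exact hy
    rw [h, top_le_iff] at h1
    exact (maximalIdeal.isMaximal R).ne_top h1
  exact IsLocalRing.of_surjective' _ Ideal.Quotient.mk_surjective

lemma maximalIdeal_quotient {y : R} (hy : y ∈ maximalIdeal R) [IsLocalRing (R ⧸ Ideal.span {y})] :
    maximalIdeal (R ⧸ Ideal.span {y}) =
      (maximalIdeal R).map (Ideal.Quotient.mk (Ideal.span {y})) := by
  apply le_antisymm
  · intro z hz
    obtain ⟨z, rfl⟩ := Ideal.Quotient.mk_surjective z
    apply Ideal.mem_map_of_mem
    by_contra h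
    have hu : IsUnit z := by simpa using h
    exact (mem_maximalIdeal _).1 hz (hu.map _)
  · apply Ideal.map_le_of_le_comap
    intro z hz
    rw [Ideal.mem_comap, mem_maximalIdeal, mem_nonunits_iff]
    intro hu
    obtain ⟨w, hw⟩ := hu.exists_right_inv
    obtain ⟨w, rfl⟩ := Ideal.Quotient.mk_surjective w
    rw [← map_mul, ← map_one (Ideal.Quotient.mk (Ideal.span {y})), Ideal.Quotient.eq] at hw
    have h1 : Ideal.span {y} ≤ maximalIdeal R := by
      rw [Ideal.span_singleton_le_iff_mem]; exact hy
    have h2 := (maximalIdeal R).sub_mem ((maximalIdeal R).mul_mem_right w hz) (h1 hw)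
    rw [sub_sub_cancel] at h2
    exact (maximalIdeal.isMaximal R).ne_top ((Ideal.eq_top_iff_one _).2 h2)

lemma dim_quotient [IsNoetherianRing R] {y : R} (hy : y ∈ maximalIdeal R) {d : ℕ}
    (hd : ((d + 1 : ℕ) : WithBot ℕ∞) ≤ ringKrullDim R) :
    (d : WithBot ℕ∞) ≤ ringKrullDim (R ⧸ Ideal.span {y}) := by
  have h1 := ringKrullDim_le_ringKrullDim_quotient_add_card ({y} : Finset R) (by
    rw [Finset.coe_singleton, Set.singleton_subset_iff]
    exact (IsLocalRing.ringJacobson_eq_maximalIdeal R) ▸ hy)
  rw [Finset.coe_singleton, Finset.card_singleton] at h1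
  have h2 := hd.trans h1
  have := local_quotient hy
  obtain ⟨n, hn⟩ : ∃ n : ℕ, ringKrullDim (R ⧸ Ideal.span {y}) = n := by
    have h3 : ringKrullDim (R ⧸ Ideal.span {y}) ≠ ⊥ := ringKrullDim_ne_bot
    have h4 : ringKrullDim (R ⧸ Ideal.span {y}) ≠ ⊤ := ringKrullDim_ne_top
    obtain ⟨m, hm⟩ := WithBot.ne_bot_iff_exists.1 h3
    rw [← hm] at h4 ⊢
    have h5 : m ≠ ⊤ := by
      intro h; apply h4; rw [h]; rfl
    obtain ⟨n, hn⟩ := ENat.ne_top_iff_exists.1 h5
    exact ⟨n, by rw [← hn]; rfl⟩
  rw [hn] at h2 ⊢
  have h3 : ((d + 1 : ℕ) : WithBot ℕ∞) ≤ ((n + 1 : ℕ) : WithBot ℕ∞) := by exact_mod_cast h2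
  have h4 : d + 1 ≤ n + 1 := by exact_mod_cast h3
  exact_mod_cast (Nat.le_of_succ_le_succ h4)

/-- Generators of the maximal ideal of the quotient by one member of a generating family. -/
lemma span_quotient {d : ℕ} {y : R} {x : Fin (d + 1) → R} (i : Fin (d + 1))
    (hy : y ∈ maximalIdeal R)
    (hspan : maximalIdeal R = Ideal.span (insert y (Set.range (x ∘ i.succAbove))))
    [IsLocalRing (R ⧸ Ideal.span {y})] :
    Ideal.span (Set.range fun j => Ideal.Quotient.mk (Ideal.span {y}) (x (i.succAbove j))) =
      maximalIdeal (R ⧸ Ideal.span {y}) := by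
  rw [maximalIdeal_quotient hy, hspan, Ideal.map_span, Set.image_insert_eq]
  have h0 : Ideal.Quotient.mk (Ideal.span {y}) y = 0 :=
    Ideal.Quotient.eq_zero_iff_mem.2 (Ideal.mem_span_singleton_self y)
  rw [h0, Ideal.span_insert_zero, ← Set.range_comp]
  rfl

end

/-- A local noetherian ring of dimension at least `d` whose maximal ideal is generated by `d`
elements is a domain. -/
theorem dom : ∀ (d : ℕ) (R : Type u) [CommRing R] [IsLocalRing R] [IsNoetherianRing R]
    (x : Fin d → R), Ideal.span (Set.range x) = maximalIdeal R →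
    (d : WithBot ℕ∞) ≤ ringKrullDim R → IsDomain R := by
  intro d
  induction d with
  | zero =>
    intro R _ _ _ x hx _
    have h1 : maximalIdeal R = ⊥ := by
      rw [← hx, Set.range_eq_empty, Ideal.span_empty]
    exact (IsLocalRing.isField_iff_maximalIdeal_eq.2 h1).isDomain
  | succ d ih =>
    intro R _ _ _ x hx hd
    -- prime avoidance
    have hav : ∃ y ∈ maximalIdeal R, y ∉ (maximalIdeal R) ^ 2 ∧
        ∀ q ∈ minimalPrimes R, y ∉ q := by
      by_contra hcon
      push Not at hcon
      have hfin : (insert ((maximalIdeal R) ^ 2) (minimalPrimes R)).Finite :=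
        (minimalPrimes.finite_of_isNoetherianRing R).insert _
      have hsub : ((maximalIdeal R : Ideal R) : Set R) ⊆
          ⋃ I ∈ insert ((maximalIdeal R) ^ 2) (minimalPrimes R), ((id I : Ideal R) : Set R) := by
        intro y hy
        by_cases h2 : y ∈ (maximalIdeal R) ^ 2
        · exact Set.mem_biUnion (Set.mem_insert _ _) h2
        · obtain ⟨q, hq, hyq⟩ := hcon y hy h2
          exact Set.mem_biUnion (Set.mem_insert_of_mem _ hq) hyq
      rw [Ideal.subset_union_prime_finite hfin (f := id) ((maximalIdeal R) ^ 2)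
        ((maximalIdeal R) ^ 2)] at hsub
      · obtain ⟨I, hI, hle⟩ := hsub
        rcases Set.mem_insert_iff.1 hI with rfl | hI
        · -- Nakayama
          have h3 : maximalIdeal R = ⊥ := by
            apply Submodule.eq_bot_of_le_smul_of_le_jacobson_bot (maximalIdeal R) _
              (IsNoetherian.noetherian _)
            · rw [smul_eq_mul, ← sq]; exact hle
            · exact maximalIdeal_le_jacobson _
          have h4 : ringKrullDim R = 0 :=
            ringKrullDim_eq_zero_of_isField (IsLocalRing.isField_iff_maximalIdeal_eq.2 h3)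
          rw [h4] at hd
          have : ((d + 1 : ℕ) : WithBot ℕ∞) ≤ ((0 : ℕ) : WithBot ℕ∞) := by exact_mod_cast hd
          have h5 : d + 1 ≤ 0 := by exact_mod_cast this
          omega
        · have hIp : I.IsPrime := hI.1.1
          have h3 : I = maximalIdeal R := le_antisymm (le_maximalIdeal hIp.ne_top) hle
          have h4 : (maximalIdeal R).height = 0 := Ideal.height_eq_zero_iff.2 (h3 ▸ hI)
          have h5 := maximalIdeal_height_eq_ringKrullDim (R := R)
          rw [h4] at h5
          rw [← h5] at hd
          have : ((d + 1 : ℕ) : WithBot ℕ∞) ≤ ((0 : ℕ) : WithBot ℕ∞) := by exact_mod_cast hd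
          have h5 : d + 1 ≤ 0 := by exact_mod_cast this
          omega
      · intro I hI h1 _
        rcases Set.mem_insert_iff.1 hI with rfl | hI
        · exact absurd rfl h1
        · exact hI.1.1
    obtain ⟨y, hy, hy2, hymin⟩ := hav
    -- `y` is part of a generating family
    obtain ⟨a, ha⟩ : ∃ a : Fin (d + 1) → R, ∑ i, a i * x i = y := by
      rw [← hx] at hy
      obtain ⟨a, ha⟩ := (Submodule.mem_span_range_iff_exists_fun R).1 hy
      exact ⟨a, by simpa using ha⟩
    have hxm : ∀ i, x i ∈ maximalIdeal R := fun i => by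
      rw [← hx]; exact Ideal.subset_span ⟨i, rfl⟩
    obtain ⟨i, hi⟩ : ∃ i, IsUnit (a i) := by
      by_contra hcon
      push Not at hcon
      apply hy2
      rw [← ha]
      refine Ideal.sum_mem _ fun i _ => ?_
      rw [sq]
      exact Ideal.mul_mem_mul ((mem_maximalIdeal _).2 (hcon i)) (hxm i)
    have hspan : maximalIdeal R = Ideal.span (insert y (Set.range (x ∘ i.succAbove))) := by
      apply le_antisymm
      · rw [← hx, Ideal.span_le]
        rintro _ ⟨j, rfl⟩
        by_cases hji : j = i
        · subst hji
          obtain ⟨v, hv⟩ := hi.exists_left_inv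
          have h1 : x j = v * (y - ∑ l, a (j.succAbove l) * x (j.succAbove l)) := by
            rw [← ha, Fin.sum_univ_succAbove _ j, add_sub_cancel_right, ← mul_assoc, hv, one_mul]
          rw [SetLike.mem_coe, h1]
          apply Ideal.mul_mem_left
          apply Ideal.sub_mem
          · exact Ideal.subset_span (Set.mem_insert _ _)
          · refine Ideal.sum_mem _ fun l _ => Ideal.mul_mem_left _ _ ?_
            exact Ideal.subset_span (Set.mem_insert_of_mem _ ⟨l, rfl⟩)
        · obtain ⟨l, rfl⟩ := Fin.exists_succAbove_eq hji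
          exact Ideal.subset_span (Set.mem_insert_of_mem _ ⟨l, rfl⟩)
      · rw [Ideal.span_le]
        intro z hz
        rcases Set.mem_insert_iff.1 hz with rfl | ⟨l, rfl⟩
        · exact hy
        · exact hxm _
    have hloc := local_quotient hy
    have hdom : IsDomain (R ⧸ Ideal.span {y}) :=
      ih (R ⧸ Ideal.span {y}) _ (span_quotient i hy hspan) (dim_quotient hy hd)
    have hprime : (Ideal.span {y}).IsPrime := (Ideal.Quotient.isDomain_iff_prime _).1 hdom
    obtain ⟨q, hq, hqle⟩ := Ideal.exists_minimalPrimes_le (I := (⊥ : Ideal R))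
      (J := Ideal.span {y}) bot_le
    have hqp : q.IsPrime := hq.1.1
    have hyq : y ∉ q := hymin q hq
    have hq0 : q = ⊥ := by
      apply Submodule.eq_bot_of_le_smul_of_le_jacobson_bot (maximalIdeal R) _
        (IsNoetherian.noetherian _)
      · intro z hz
        obtain ⟨r, rfl⟩ := Ideal.mem_span_singleton'.1 (hqle hz)
        have hr : r ∈ q := (hqp.mem_or_mem hz).resolve_right hyq
        rw [mul_comm]
        exact Submodule.smul_mem_smul hy hr
      · exact maximalIdeal_le_jacobson _
    rw [hq0] at hqp
    exact IsDomain.of_bot_isPrime R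

/-- A minimal system of generators of the maximal ideal of a regular local ring is a regular
sequence. -/
theorem seq : ∀ (d : ℕ) (R : Type u) [CommRing R] [IsLocalRing R] [IsNoetherianRing R]
    (x : Fin d → R), Ideal.span (Set.range x) = maximalIdeal R →
    (d : WithBot ℕ∞) ≤ ringKrullDim R → IsWeaklyRegular R (List.ofFn x) := by
  intro d
  induction d with
  | zero =>
    intro R _ _ _ x _ _
    rw [List.ofFn_zero]
    exact IsWeaklyRegular.nil R R
  | succ d ih =>
    intro R _ _ _ x hx hd
    have hdom := dom (d + 1) R x hx hd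
    have hxm : ∀ i, x i ∈ maximalIdeal R := fun i => by
      rw [← hx]; exact Ideal.subset_span ⟨i, rfl⟩
    have hspan : maximalIdeal R =
        Ideal.span (insert (x 0) (Set.range (x ∘ (0 : Fin (d + 1)).succAbove))) := by
      rw [← hx]
      congr 1
      ext z
      simp only [Set.mem_range, Set.mem_insert_iff, Function.comp_apply]
      constructor
      · rintro ⟨j, rfl⟩
        by_cases hj : j = 0
        · left; rw [hj]
        · right
          obtain ⟨l, rfl⟩ := Fin.exists_succAbove_eq hj
          exact ⟨l, rfl⟩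
      · rintro (rfl | ⟨l, rfl⟩)
        · exact ⟨0, rfl⟩
        · exact ⟨_, rfl⟩
    have hx0 : x 0 ≠ 0 := by
      intro h0
      have h1 : Ideal.span (Set.range (x ∘ (0 : Fin (d + 1)).succAbove)) = maximalIdeal R := by
        rw [hspan, h0, Ideal.span_insert_zero]
      have h2 := dim_le_of_span h1
      have h3 := hd.trans h2
      have h4 : d + 1 ≤ d := by exact_mod_cast h3
      omega
    have hloc := local_quotient (hxm 0)
    have h2 := ih (R ⧸ Ideal.span {x 0}) _ (span_quotient 0 (hxm 0) hspan)
      (dim_quotient (hxm 0) hd)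
    rw [List.ofFn_succ, isWeaklyRegular_cons_iff]
    refine ⟨isSMulRegular_iff_right_eq_zero_of_smul.2 fun z hz => ?_, ?_⟩
    · exact (mul_eq_zero.1 hz).resolve_left hx0
    · have h3 : (List.ofFn fun j => Ideal.Quotient.mk (Ideal.span {x 0})
          (x ((0 : Fin (d + 1)).succAbove j))) =
          (List.ofFn fun j : Fin d => x j.succ).map (algebraMap R (R ⧸ Ideal.span {x 0})) := by
        rw [List.map_ofFn]
        rfl
      rw [h3, isWeaklyRegular_map_algebraMap_iff] at h2
      have he : (x 0 • (⊤ : Submodule R R)) = (Ideal.span {x 0} : Ideal R) := by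
        rw [← Submodule.ideal_span_singleton_smul]
        exact Ideal.mul_top _
      exact (LinearEquiv.isWeaklyRegular_congr (Submodule.quotEquivOfEq _ _ he) _).2 h2

end Pool.Agent.FMod
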