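import Pool.Agent.FMod.Induct

/-!
The main induction on the number of free exponents.
-/

set_option autoImplicit false

namespace Pool.Agent.FMod

variable {c : ℕ} {R M : Type*} [CommRing R] [AddCommGroup M] [Module R M]

/-- If the cohomology for the exponents `1` vanishes at a prime, so does the cohomology for all
positive exponents. -/
lemma vanish (S₀ : Submonoid R) (f : Fin c → R) (i : ℤ)
    (h1 : ∀ z ∈ Z f (fun _ => 1) (⊤ : Submodule R M) i, ∃ s ∈ S₀,
      s • z ∈ B f (fun _ => 1) (⊤ : Submodule R M) i) :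
    ∀ (k : ℕ) (n : Fin c → ℕ), ∑ j, n j = k → (∀ j, 1 ≤ n j) →
      ∀ z ∈ Z f n (⊤ : Submodule R M) i, ∃ s ∈ S₀, s • z ∈ B f n (⊤ : Submodule R M) i := by
  intro k
  induction k using Nat.strong_induction_on with
  | _ k ih =>
    intro n hk hn z hz
    by_cases hall : ∀ j, n j = 1
    · have : n = fun _ => 1 := funext hall
      subst this
      exact h1 z hz
    · push Not at hall
      obtain ⟨j, hj⟩ := hall
      have hj2 : 2 ≤ n j := by have := hn j; omega
      set na := Function.update n j (n j - 1) with hna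
      set nb := Function.update n j 1 with hnb
      have ea : na j = n j - 1 := by simp [na]
      have eb : nb j = 1 := by simp [nb]
      have ha' : ∀ l, l ≠ j → na l = n l := fun l hl => by simp [na, hl]
      have hb' : ∀ l, l ≠ j → nb l = n l := fun l hl => by simp [nb, hl]
      have sum_lt : ∀ m : Fin c → ℕ, (∀ l, l ≠ j → m l = n l) → m j < n j →
          ∑ l, m l < k := by
        intro m hm hmj
        rw [← hk]
        refine Finset.sum_lt_sum (fun l _ => ?_) ⟨j, Finset.mem_univ _, hmj⟩
        by_cases hl : l = j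
        · subst hl; exact hmj.le
        · exact (hm l hl).le
      have hba : ∀ l, l ≠ j → nb l = na l := fun l hl => by rw [ha' l hl, hb' l hl]
      have hja : n j = na j + nb j := by rw [ea, eb]; omega
      have hbe : be f (Pi.single j (na j)) z ∈ Z f nb (⊤ : Submodule R M) i := by
        refine be_Z hz ?_
        funext l
        by_cases hl : l = j
        · subst hl; simp [hja, add_comm]
        · simp [hb' l hl, hl]
      obtain ⟨s, hs, hs'⟩ := ih _ (sum_lt nb hb' (by omega)) nb rfl (fun l => by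
        by_cases hl : l = j
        · subst hl; omega
        · rw [hb' l hl]; exact hn l) _ hbe
      rw [← map_smul] at hs'
      obtain ⟨w, hw, hw'⟩ := exact3 (na := na) (nb := nb) (nab := n) hba
        (fun l hl => (ha' l hl).symm) hja (Submodule.smul_mem _ s hz) hs'
      obtain ⟨t, ht, ht'⟩ := ih _ (sum_lt na ha' (by omega)) na rfl (fun l => by
        by_cases hl : l = j
        · subst hl; omega
        · rw [ha' l hl]; exact hn l) w hw
      refine ⟨t * s, S₀.mul_mem ht hs, ?_⟩
      have h5 : al f (Pi.single j (nb j)) (t • w) ∈ B f n (⊤ : Submodule R M) i := by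
        refine al_B ht' ?_
        funext l
        by_cases hl : l = j
        · subst hl; simp [hja]
        · simp [ha' l hl, hl]
      have h6 := Submodule.add_mem _ (Submodule.smul_mem _ t hw') h5
      rw [map_smul, smul_sub, sub_add_cancel, smul_smul] at h6
      exact h6

/-- Uniformity over a finitely generated submodule. -/
lemma unif {T T' : Type*} [AddCommGroup T] [Module R T] [AddCommGroup T'] [Module R T']
    (S₀ : Submonoid R) (W : Submodule R T) (hW : W.FG) (Q : ℕ → Submodule R T')
    (hQ : Monotone Q) (φ : T →ₗ[R] T')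
    (h : ∀ w ∈ W, ∃ s ∈ S₀, ∃ b, s • φ w ∈ Q b) (b0 : ℕ) :
    ∃ s ∈ S₀, ∃ b, b0 ≤ b ∧ ∀ w ∈ W, s • φ w ∈ Q b := by
  classical
  obtain ⟨A, hA⟩ := hW
  have key : ∀ A' : Finset T, A' ⊆ A → ∃ s ∈ S₀, ∃ b, b0 ≤ b ∧ ∀ w ∈ A', s • φ w ∈ Q b := by
    intro A'
    induction A' using Finset.induction_on with
    | empty => intro _; exact ⟨1, S₀.one_mem, b0, le_rfl, by simp⟩
    | insert a A' _ ih =>
      intro hsub
      obtain ⟨s, hs, b, hb, hw⟩ := ih (fun x hx => hsub (Finset.mem_insert_of_mem hx))
      obtain ⟨t, ht, b', hb'⟩ := h a (by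
        rw [← hA]; exact Submodule.subset_span (hsub (Finset.mem_insert_self _ _)))
      refine ⟨s * t, S₀.mul_mem hs ht, max b b', le_max_of_le_left hb, ?_⟩
      intro w hw'
      rcases Finset.mem_insert.1 hw' with rfl | hw'
      · rw [mul_smul]
        exact Submodule.smul_mem _ _ (hQ (le_max_right b b') hb')
      · rw [mul_comm, mul_smul]
        exact Submodule.smul_mem _ _ (hQ (le_max_left b b') (hw w hw'))
  obtain ⟨s, hs, b, hb, hw⟩ := key A (Finset.Subset.refl _)
  refine ⟨s, hs, b, hb, ?_⟩
  intro w hw'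
  rw [← hA] at hw'
  induction hw' using Submodule.span_induction with
  | mem y hy => exact hw y hy
  | zero => rw [map_zero, smul_zero]; exact Submodule.zero_mem _
  | add y z _ _ hy hz => rw [map_add, smul_add]; exact Submodule.add_mem _ hy hz
  | smul r y _ hy => rw [map_smul, smul_comm]; exact Submodule.smul_mem _ _ hy

/-- Exponents: `n j` for `j < k` and `p ^ e` for `j ≥ k`. -/
def mix (p : ℕ) (k : ℕ) (n : Fin c → ℕ) (e : ℕ) : Fin c → ℕ :=
  fun j => if (j : ℕ) < k then n j else p ^ e

/-- The difference of `mix` at level `e'` and at level `e`. -/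
def gap (c p : ℕ) (k : ℕ) (e e' : ℕ) : Fin c → ℕ :=
  fun j => if (j : ℕ) < k then 0 else p ^ e' - p ^ e

/-- Raising the exponents `n j` with `j < k` to `p ^ e`. -/
def low (p : ℕ) (k : ℕ) (n : Fin c → ℕ) (e : ℕ) : Fin c → ℕ :=
  fun j => if (j : ℕ) < k then p ^ e - n j else 0

section arith

variable {p : ℕ}

lemma mix_add_gap (hp : 1 ≤ p) {k : ℕ} {n : Fin c → ℕ} {e e' : ℕ} (h : e ≤ e') :
    mix p k n e' = mix p k n e + gap c p k e e' := by
  funext j
  have := Nat.pow_le_pow_right hp h
  simp only [mix, gap, Pi.add_apply]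
  split_ifs <;> omega

lemma gap_add_gap (hp : 1 ≤ p) {k : ℕ} {e e' e'' : ℕ} (h : e ≤ e') (h' : e' ≤ e'') :
    gap c p k e' e'' + gap c p k e e' = gap c p k e e'' := by
  funext j
  have := Nat.pow_le_pow_right hp h
  have := Nat.pow_le_pow_right hp h'
  simp only [gap, Pi.add_apply]
  split_ifs <;> omega

lemma smul_mix {k : ℕ} {n : Fin c → ℕ} {e e' : ℕ} :
    p ^ e • mix p k n e' = mix p k (p ^ e • n) (e' + e) := by
  funext j
  simp only [mix, Pi.smul_apply, smul_eq_mul]
  split_ifs
  · rfl
  · rw [pow_add, mul_comm]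

lemma smul_gap {k : ℕ} {e e' e'' : ℕ} :
    p ^ e • gap c p k e' e'' = gap c p k (e' + e) (e'' + e) := by
  funext j
  simp only [gap, Pi.smul_apply, smul_eq_mul]
  split_ifs
  · rfl
  · rw [pow_add, pow_add, Nat.mul_sub, mul_comm, mul_comm (p ^ e) (p ^ e')]

end arith

/-- The saturation of the coboundaries with respect to powers of `s`. -/
def InBs (f : Fin c → R) (s : R) (n : Fin c → ℕ) (N' : Submodule R M) (i : ℤ)
    (ω : Finset (Fin c) → M) : Prop :=
  ∃ k : ℕ, s ^ k • ω ∈ B f n N' i

variable {p : ℕ} (D : Data R M p)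

/-- The statement proved by induction on `k`. -/
def Star (S₀ : Submonoid R) (f : Fin c → R) (i : ℤ) (k : ℕ) : Prop :=
  ∃ s ∈ S₀, ∃ a : ℕ, ∀ (e : ℕ) (n : Fin c → ℕ), (∀ j, n j ≤ p ^ e) →
    ∀ z ∈ Z f (mix p k n e) (D.Mf e) i,
      InBs f s (mix p k n (e + a)) (D.Mf (e + a)) i (al f (gap c p k e (e + a)) z)

/-- Lifting of cocycles of degree `i - 1`. -/
def Lift (f : Fin c → R) (i : ℤ) (s : R) (k j : ℕ) : Prop :=
  ∃ A : ℕ, ∀ (e : ℕ) (n : Fin c → ℕ), (∀ l, n l ≤ p ^ e) →
    ∀ ζ ∈ Z f (mix p k n e) (D.Mf e) (i - 1),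
      ∃ K : ℕ, ∃ ζ' ∈ Z f (mix p k (n + low p j n e) (e + A)) (D.Mf (e + A)) (i - 1),
        s ^ K • al f (gap c p k e (e + A)) ζ - be f (low p j n e) ζ' ∈
          B f (mix p k n (e + A)) (D.Mf (e + A)) (i - 1)

/-- `1 ≤ p` is all that is needed about `p`. -/
theorem lift_all (hp : 1 ≤ p) {f : Fin c → R} {i : ℤ} {s : R} {k a : ℕ} (hk : k ≤ c)
    (hstar : ∀ (e : ℕ) (n : Fin c → ℕ), (∀ j, n j ≤ p ^ e) →
      ∀ z ∈ Z f (mix p k n e) (D.Mf e) i,
        InBs f s (mix p k n (e + a)) (D.Mf (e + a)) i (al f (gap c p k e (e + a)) z)) :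
    ∀ j, j ≤ k → Lift D f i s k j := by
  intro j
  induction j with
  | zero =>
    intro _
    refine ⟨0, fun e n _ ζ hζ => ⟨0, ζ, ?_, ?_⟩⟩
    · have : n + low p 0 n e = n := by funext l; simp [low]
      rw [this]; exact hζ
    · have h1 : low p 0 n e = 0 := by funext l; simp [low]
      have h2 : gap c p k e (e + 0) = 0 := by funext l; simp [gap]
      rw [h1, h2, al_zero, be_zero, pow_zero, one_smul, sub_self]
      exact Submodule.zero_mem _
  | succ j ih =>
    intro hj
    obtain ⟨A, hA⟩ := ih (by omega)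
    refine ⟨A + a, fun e n hn ζ hζ => ?_⟩
    obtain ⟨K, ζ', hζ', hd⟩ := hA e n hn ζ hζ
    have hjc : j < c := by omega
    set jj : Fin c := ⟨j, hjc⟩ with hjj
    have hjk : (jj : ℕ) < k := by simp [jj]; omega
    -- the exponents
    set n1 : Fin c → ℕ := n + low p j n e with hn1
    have hn1j : n1 jj = n jj := by simp [n1, low, jj]
    set n0 : Fin c → ℕ := Function.update n1 jj (p ^ e - n jj) with hn0
    have hpe : p ^ e ≤ p ^ (e + A) := Nat.pow_le_pow_right hp (by omega)
    have hn1le : ∀ l, n1 l ≤ p ^ e := by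
      intro l
      simp only [n1, low, Pi.add_apply]
      have := hn l
      split_ifs <;> omega
    have hn0le : ∀ l, n0 l ≤ p ^ (e + A) := by
      intro l
      by_cases hl : l = jj
      · subst hl; simp only [n0, Function.update_self]; omega
      · simp only [n0, Function.update_of_ne hl]; exact (hn1le l).trans hpe
    have hagree : ∀ m l, l ≠ jj → mix p k n0 m l = mix p k n1 m l := by
      intro m l hl
      simp only [mix, n0, Function.update_of_ne hl]
    have hE : eOp R jj ζ' ∈ Z f (mix p k n0 (e + A)) (D.Mf (e + A)) i :=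
      eOp_Z hζ' (by ring) (hagree (e + A))
    obtain ⟨K', hK'⟩ := hstar (e + A) n0 hn0le _ hE
    have hgap : gap c p k (e + A) (e + A + a) jj = 0 := by simp [gap, hjk]
    rw [← eOp_al_of_eq_zero f hgap, ← map_smul] at hK'
    set ζ1 := s ^ K' • al f (gap c p k (e + A) (e + A + a)) ζ' with hζ1
    have hζ1Z : ζ1 ∈ Z f (mix p k n1 (e + A + a)) (D.Mf (e + A + a)) (i - 1) := by
      refine Submodule.smul_mem _ _ (Z_mono (D.mono (by omega)) (al_Z hζ' ?_))
      exact mix_add_gap hp (by omega)
    have hab : ∀ l, l ≠ jj →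
        mix p k (n + low p (j + 1) n e) (e + A + a) l = mix p k n0 (e + A + a) l := by
      intro l hl
      have : (l : ℕ) ≠ j := fun h => hl (Fin.ext h)
      simp only [mix, n0, Function.update_of_ne hl, n1, Pi.add_apply, low]
      have h2 : ((l : ℕ) < j + 1) ↔ ((l : ℕ) < j) := by omega
      simp only [h2]
    have hsum : mix p k (n + low p (j + 1) n e) (e + A + a) jj =
        mix p k n0 (e + A + a) jj + mix p k n1 (e + A + a) jj := by
      have := hn jj
      have h3 : (jj : ℕ) < j + 1 := by simp [jj]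
      simp only [mix, hjk, if_true, n0, Function.update_self, hn1j, Pi.add_apply, low, h3]
      omega
    obtain ⟨w, hw, hw'⟩ := exact2 (na := mix p k n0 (e + A + a))
      (nb := mix p k n1 (e + A + a)) (nab := mix p k (n + low p (j + 1) n e) (e + A + a))
      (fun l hl => (hagree _ l hl).symm) hab hsum (by ring) hζ1Z hK'
    refine ⟨K' + K, w, by simpa only [add_assoc] using hw, ?_⟩
    -- combine
    have hna : mix p k n0 (e + A + a) jj = p ^ e - n jj := by
      simp only [mix, hjk, if_true, n0, Function.update_self]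
    rw [hna] at hw'
    have hlow : low p (j + 1) n e = low p j n e + Pi.single jj (p ^ e - n jj) := by
      funext l
      by_cases hl : l = jj
      · subst hl; simp [low, jj]
      · have : (l : ℕ) ≠ j := fun h => hl (Fin.ext h)
        simp only [low, Pi.add_apply, Pi.single_eq_of_ne hl, add_zero]
        have h2 : ((l : ℕ) < j + 1) ↔ ((l : ℕ) < j) := by omega
        simp only [h2]
    have h7 : be f (low p j n e) (ζ1 - be f (Pi.single jj (p ^ e - n jj)) w) ∈
        B f (mix p k n (e + A + a)) (D.Mf (e + A + a)) (i - 1) := by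
      refine be_B hw' ?_
      funext l
      simp only [mix, n1, Pi.add_apply]
      by_cases hl : (l : ℕ) < k
      · simp only [hl, if_true]
      · have h5 : low p j n e l = 0 := by
          have : ¬ ((l : ℕ) < j) := by omega
          simp [low, this]
        simp only [hl, if_false, h5, add_zero]
    have h8 : s ^ K' • al f (gap c p k (e + A) (e + A + a))
        (s ^ K • al f (gap c p k e (e + A)) ζ - be f (low p j n e) ζ') ∈
        B f (mix p k n (e + A + a)) (D.Mf (e + A + a)) (i - 1) := by
      refine Submodule.smul_mem _ _ (B_mono (D.mono (by omega)) (al_B hd ?_))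
      exact mix_add_gap hp (by omega)
    have h9 := Submodule.add_mem _ h8 h7
    have h10 : s ^ K' • al f (gap c p k (e + A) (e + A + a))
        (s ^ K • al f (gap c p k e (e + A)) ζ - be f (low p j n e) ζ') +
        be f (low p j n e) (ζ1 - be f (Pi.single jj (p ^ e - n jj)) w) =
        s ^ (K' + K) • al f (gap c p k e (e + A + a)) ζ - be f (low p (j + 1) n e) w := by
      rw [hlow, ← be_be, map_sub, map_sub, map_smul, al_al,
        gap_add_gap hp (Nat.le_add_right e A) (Nat.le_add_right (e + A) a), hζ1, map_smul,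
        ← al_be, smul_sub, smul_smul, ← pow_add]
      abel
    rw [h10] at h9
    rw [show e + (A + a) = e + A + a by ring]
    exact h9

end Pool.Agent.FMod
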